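import Pool.Agent.Lib.MP_a349b4_lc.LG.Defs

/-!
Lazy walks, and small sets of vertices that meet every short walk to a root near its start.
-/

set_option autoImplicit false

namespace Pool.Agent.Lib.MP_a349b4_lc.GZ

open Finset

variable {n : ℕ}

/-- Lazy walks with exactly `l` steps. -/
inductive Lz (E : Finset (Fin n × Fin n)) : ℕ → Fin n → Fin n → Prop
  | nil (x : Fin n) : Lz E 0 x x
  | cons {l : ℕ} {x y z : Fin n} : (x = y ∨ (x, y) ∈ E) → Lz E l y z → Lz E (l + 1) x z

variable {E : Finset (Fin n × Fin n)}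

theorem Lz.trans {l l' : ℕ} {x y z : Fin n} (h : Lz E l x y) (h' : Lz E l' y z) :
    Lz E (l + l') x z := by
  induction h with
  | nil x => simpa using h'
  | @cons l x y w h1 _ ih =>
    have e : l + 1 + l' = l + l' + 1 := by omega
    rw [e]
    exact Lz.cons h1 (ih h')

theorem Lz.refl (l : ℕ) (x : Fin n) : Lz E l x x := by
  induction l with
  | zero => exact Lz.nil x
  | succ l ih => exact Lz.cons (Or.inl rfl) ih

theorem Lz.mono {l l' : ℕ} {x y : Fin n} (h : Lz E l x y) (hl : l ≤ l') : Lz E l' x y := by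
  obtain ⟨c, rfl⟩ := Nat.exists_eq_add_of_le hl
  exact h.trans (Lz.refl c y)

theorem Lz.split {l : ℕ} {x z : Fin n} (h : Lz E l x z) :
    ∀ i ≤ l, ∃ y, Lz E i x y ∧ Lz E (l - i) y z := by
  induction h with
  | nil x =>
    intro i hi
    obtain rfl : i = 0 := by omega
    exact ⟨x, Lz.nil x, Lz.nil x⟩
  | @cons l x y z h1 h2 ih =>
    intro i hi
    cases i with
    | zero => exact ⟨x, Lz.nil x, Lz.cons h1 h2⟩
    | succ i =>
      obtain ⟨a, a1, a2⟩ := ih i (by omega)
      refine ⟨a, Lz.cons h1 a1, ?_⟩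
      rwa [Nat.add_sub_add_right]

theorem reach_iff {k : ℕ} {u v : Fin n} : LG.Reach E k u v ↔ Lz E k u v := by
  constructor
  · rintro ⟨l, hl, p, h0, h1, hp⟩
    have : ∀ i ≤ l, Lz E i u (p i) := by
      intro i
      induction i with
      | zero => intro _; rw [h0]; exact Lz.nil u
      | succ i ih =>
        intro hi
        exact (ih (by omega)).trans (Lz.cons (Or.inr (hp i (by omega))) (Lz.nil _))
    exact (h1 ▸ this l le_rfl).mono hl
  · intro h
    induction h with
    | nil x => exact ⟨0, le_rfl, fun _ => x, rfl, rfl, fun i hi => by omega⟩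
    | @cons l x y z h1 _ ih =>
      obtain ⟨l', hl, p, h0, h2, hp⟩ := ih
      rcases h1 with rfl | h1
      · exact ⟨l', by omega, p, h0, h2, hp⟩
      · refine ⟨l' + 1, by omega, fun i => Nat.casesOn i x p, rfl, h2, fun i hi => ?_⟩
        cases i with
        | zero => simpa [h0] using h1
        | succ i => exact hp i (by omega)

theorem cover_levels (E : Finset (Fin n × Fin n)) (k q : ℕ) (hq : 0 < q) :
    ∃ H : Fin n → Finset (Fin n), (∀ v, (H v).card ≤ (if k < q then 0 else n / q) + 1) ∧
      ∀ v u, Lz E k u v →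
        ∃ h ∈ H v, ∃ i ≤ q - 1, i ≤ k ∧ Lz E i u h ∧ Lz E (k - i) h v := by
  classical
  by_cases hk : k < q
  · exact ⟨fun v => {v}, fun v => by simp, fun v u h =>
      ⟨v, mem_singleton_self v, k, by omega, le_rfl, h, Lz.refl _ _⟩⟩
  rw [if_neg hk]
  have key : ∀ v : Fin n, ∃ H : Finset (Fin n), H.card ≤ n / q + 1 ∧ ∀ u, Lz E k u v →
      ∃ h ∈ H, ∃ i ≤ q - 1, i ≤ k ∧ Lz E i u h ∧ Lz E (k - i) h v := by
    intro v
    let dd : Fin n → ℕ := fun x => if h : ∃ l, Lz E l x v then Nat.find h else 0
    have hsum : ∑ r ∈ range q, (univ.filter (fun x => dd x % q = r)).card = n := by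
      rw [← card_eq_sum_card_fiberwise (f := fun x => dd x % q) (s := univ) (t := range q)]
      · simp
      · intro x _
        exact mem_coe.2 (mem_range.2 (Nat.mod_lt _ hq))
    obtain ⟨r, hr, hc⟩ : ∃ r ∈ range q, (univ.filter (fun x => dd x % q = r)).card ≤ n / q := by
      by_contra hn
      push Not at hn
      have := card_nsmul_le_sum (range q) (fun r => (univ.filter (fun x => dd x % q = r)).card)
        (n / q + 1) (fun r hr => hn r hr)
      rw [hsum, card_range, smul_eq_mul] at this
      have h2 := Nat.lt_mul_div_succ n hq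
      omega
    refine ⟨insert v (univ.filter (fun x => dd x % q = r)), (card_insert_le _ _).trans (by omega),
      fun u hu => ?_⟩
    have ex : ∃ l, Lz E l u v := ⟨k, hu⟩
    have hD : Nat.find ex ≤ k := Nat.find_min' ex hu
    have hS := Nat.find_spec ex
    by_cases hlt : Nat.find ex < q
    · exact ⟨v, mem_insert_self _ _, Nat.find ex, by omega, hD, hS, Lz.refl _ _⟩
    · have hr' := mem_range.1 hr
      have hi : (Nat.find ex - r) % q < q := Nat.mod_lt _ hq
      obtain ⟨y, y1, y2⟩ := hS.split ((Nat.find ex - r) % q) (by omega)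
      refine ⟨y, mem_insert_of_mem (mem_filter.2 ⟨mem_univ _, ?_⟩), _, by omega, by omega, y1,
        y2.mono (by omega)⟩
      have ey : ∃ l, Lz E l y v := ⟨_, y2⟩
      have b1 : Nat.find ey ≤ Nat.find ex - (Nat.find ex - r) % q := Nat.find_min' ey y2
      have b2 := Nat.find_min' ex (y1.trans (Nat.find_spec ey))
      have b3 := Nat.div_add_mod (Nat.find ex - r) q
      have b4 : dd y = r + q * ((Nat.find ex - r) / q) := by
        simp only [dd, dif_pos ey]
        omega
      rw [b4, Nat.add_mul_mod_self_left, Nat.mod_eq_of_lt hr']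
  choose H h1 h2 using key
  exact ⟨H, h1, h2⟩

end Pool.Agent.Lib.MP_a349b4_lc.GZ
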