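import Mathlib

/-! A family of lists stored one after the other behind a table of their starting addresses. -/

set_option autoImplicit false

namespace Pool.Agent.Lib.MP_a349b4_lc.GZ

open Finset

theorem flat_len (F : ℕ → List ℕ) (Q : ℕ) :
    ((List.range Q).flatMap F).length = ∑ b ∈ range Q, (F b).length := by
  induction Q with
  | zero => simp
  | succ Q ih => rw [List.range_succ, List.flatMap_append, List.length_append, ih, sum_range_succ]; simp

theorem flat_get (F : ℕ → List ℕ) (Q : ℕ) : ∀ a < Q, ∀ q < (F a).length,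
    ((List.range Q).flatMap F).getD (∑ b ∈ range a, (F b).length + q) 0 = (F a).getD q 0 := by
  induction Q with
  | zero => intro a ha; omega
  | succ Q ih =>
    intro a ha q hq
    rw [List.range_succ, List.flatMap_append]
    rcases Nat.lt_succ_iff_lt_or_eq.1 ha with h | rfl
    · rw [List.getD_append _ _ _ _ ?_, ih a h q hq]
      rw [flat_len]
      have := sum_le_sum_of_subset (f := fun b => (F b).length)
        (range_subset_range.2 (Nat.succ_le_of_lt h))
      rw [sum_range_succ] at this
      omega
    · rw [List.getD_append_right _ _ _ _ (by rw [flat_len]; omega), flat_len,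
        Nat.add_sub_cancel_left]
      simp

theorem exists_csr (F : ℕ → List ℕ) (Q : ℕ) : ∃ (D : List ℕ) (off : ℕ → ℕ),
    D.length = off Q ∧ off Q = Q + 1 + ∑ b ∈ range Q, (F b).length ∧
    (∀ a ≤ Q, D.getD a 0 = off a) ∧
    (∀ a < Q, off (a + 1) = off a + (F a).length ∧
      ∀ q < (F a).length, D.getD (off a + q) 0 = (F a).getD q 0) ∧
    ∀ x ∈ D, x ≤ off Q ∨ ∃ a < Q, x ∈ F a := by
  refine ⟨(List.range (Q + 1)).map (fun a => Q + 1 + ∑ b ∈ range a, (F b).length) ++
    (List.range Q).flatMap F, fun a => Q + 1 + ∑ b ∈ range a, (F b).length, ?_, rfl, ?_, ?_, ?_⟩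
  · rw [List.length_append, flat_len]; simp
  · intro a ha
    rw [List.getD_append _ _ _ _ (by simp; omega), List.getD_eq_getElem _ _ (by simp; omega)]
    simp
  · intro a ha
    refine ⟨by dsimp only; rw [sum_range_succ]; omega, fun q hq => ?_⟩
    rw [List.getD_append_right _ _ _ _ (by simp; omega), ← flat_get F Q a ha q hq]
    exact congrArg (fun t => List.getD _ t 0) (by simp; omega)
  · intro x hx
    rcases List.mem_append.1 hx with h | h
    · obtain ⟨a, ha, rfl⟩ := List.mem_map.1 h
      refine Or.inl (Nat.add_le_add_left (sum_le_sum_of_subset (range_subset_range.2 ?_)) _)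
      have := List.mem_range.1 ha
      omega
    · obtain ⟨a, ha, h⟩ := List.mem_flatMap.1 h
      exact Or.inr ⟨a, List.mem_range.1 ha, h⟩

end Pool.Agent.Lib.MP_a349b4_lc.GZ
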