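import Mathlib

/-!
Greedy zero sets on a graded digraph: the recursive query `qry`, the condition `Good` on the
stored sets, correctness of the query and existence of small stored sets.
-/

set_option autoImplicit false

namespace Pool.Agent.Lib.MP_a349b4_lc.GZ

open Finset

/-- A graded digraph on `0, …, N - 1` with adjacency lists in both directions. -/
structure Gr where
  N : ℕ
  adj : Bool → ℕ → List ℕ
  lay : Bool → ℕ → ℕ
  lt : ∀ d x y, y ∈ adj d x → y < N
  symm : ∀ d x y, y ∈ adj d x → x ∈ adj (!d) y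
  grade : ∀ d x y, y ∈ adj d x → lay d y = lay d x + 1

/-- The scan of the work list: `fuel`, position, list, answer so far. -/
def loop (f1 f2 : ℕ → Bool) (adj : ℕ → List ℕ) (lay : ℕ → ℕ) (lim X : ℕ) :
    ℕ → ℕ → List ℕ → Bool → Bool
  | 0, _, _, r => r
  | fuel + 1, i, L, r =>
    if i < L.length then
      if lay (L.getD i 0) ≤ lim ∧ L.getD i 0 ∉ L.take i ∧ f1 (L.getD i 0) = false then
        if L.length + (adj (L.getD i 0)).length ≤ X + 1 then
          loop f1 f2 adj lay lim X fuel (i + 1) (L ++ adj (L.getD i 0)) (r || f2 (L.getD i 0))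
        else loop f1 f2 adj lay lim X fuel (i + 1) L true
      else loop f1 f2 adj lay lim X fuel (i + 1) L (r || f2 (L.getD i 0))
    else r

/-- The query at depth `j`, direction `d`, node `idx`, vertex `x`. -/
def qry (G : Gr) (Lf : ℕ → List ℕ) (X : ℕ) : ℕ → Bool → ℕ → ℕ → Bool
  | 0, _, idx, x => decide (x ∈ Lf idx)
  | j + 1, d, idx, x =>
    loop (qry G Lf X j (!d) (2 * idx)) (qry G Lf X j d (2 * idx + 1)) (G.adj d) (G.lay d)
      (G.lay d x + (2 ^ j - 1)) X (X + 1) 0 [x] false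

/-- Walks with exactly `l` steps. -/
inductive Wk (G : Gr) (d : Bool) : ℕ → ℕ → ℕ → Prop
  | nil (x : ℕ) : Wk G d 0 x x
  | cons {l x y z : ℕ} : y ∈ G.adj d x → Wk G d l y z → Wk G d (l + 1) x z

variable {G : Gr} {d : Bool}

theorem Wk.trans {l l' x y z : ℕ} (h : Wk G d l x y) (h' : Wk G d l' y z) :
    Wk G d (l + l') x z := by
  induction h with
  | nil x => simpa using h'
  | @cons l x y w h1 _ ih =>
    have e : l + 1 + l' = l + l' + 1 := by omega
    rw [e]
    exact Wk.cons h1 (ih h')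

theorem Wk.snoc {l x y z : ℕ} (h : Wk G d l x y) (h' : z ∈ G.adj d y) : Wk G d (l + 1) x z :=
  h.trans (Wk.cons h' (Wk.nil z))

theorem Wk.rev {l x y : ℕ} (h : Wk G d l x y) : Wk G (!d) l y x := by
  induction h with
  | nil x => exact Wk.nil x
  | cons h1 _ ih => exact ih.snoc (G.symm _ _ _ h1)

theorem Wk.lay {l x y : ℕ} (h : Wk G d l x y) : G.lay d y = G.lay d x + l := by
  induction h with
  | nil x => rfl
  | cons h1 _ ih => rw [ih, G.grade _ _ _ h1]; omega

theorem Wk.lt {l x y : ℕ} (h : Wk G d l x y) (hx : x < G.N) : y < G.N := by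
  induction h with
  | nil x => exact hx
  | cons h1 _ ih => exact ih (G.lt _ _ _ h1)

/-- `x` reaches `Th`. -/
def Hits (G : Gr) (d : Bool) (Th : Finset ℕ) (x : ℕ) : Prop := ∃ l, ∃ h ∈ Th, Wk G d l x h

/-- `x` reaches `Th` in at most `t` steps. -/
def HitsIn (G : Gr) (d : Bool) (t : ℕ) (Th : Finset ℕ) (x : ℕ) : Prop :=
  ∃ l ≤ t, ∃ h ∈ Th, Wk G d l x h

/-- `T` is a greedy zero set for `Th`. -/
def Greedy (G : Gr) (X : ℕ) (d : Bool) (t : ℕ) (Th T : Finset ℕ) : Prop :=
  (∀ u ∈ T, ¬ Hits G d Th u) ∧ ∀ u < G.N, ¬ Hits G d Th u → ∀ Sv : Finset ℕ,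
    (∀ y ∈ Sv, (∃ l ≤ t, Wk G d l u y) ∧ ¬ HitsIn G (!d) t T y) →
      ∑ y ∈ Sv, (G.adj d y).length ≤ X

/-- The leaves below node `idx` hold `Th` and the greedy sets. -/
def Good (G : Gr) (Lf : ℕ → List ℕ) (X : ℕ) : ℕ → Bool → ℕ → Finset ℕ → Prop
  | 0, _, idx, Th => ∀ y, y ∈ Lf idx ↔ y ∈ Th
  | j + 1, d, idx, Th => ∃ T, Greedy G X d (2 ^ j - 1) Th T ∧
      Good G Lf X j (!d) (2 * idx) T ∧ Good G Lf X j d (2 * idx + 1) Th

theorem exists_greedy (G : Gr) (X : ℕ) (d : Bool) (t : ℕ) (Th : Finset ℕ) :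
    ∃ T ⊆ range G.N, Greedy G X d t Th T ∧
      T.card * (X + 1) ≤ ∑ y ∈ range G.N, (G.adj d y).length := by
  classical
  let B : Finset ℕ → Finset ℕ := fun T => (range G.N).filter (fun y => HitsIn G (!d) t T y)
  let C : Finset (Finset ℕ) := (range G.N).powerset.filter
    (fun T => (∀ u ∈ T, ¬ Hits G d Th u) ∧ T.card * (X + 1) ≤ ∑ y ∈ B T, (G.adj d y).length)
  have hne : C.Nonempty := ⟨∅, by simp [C]⟩
  obtain ⟨T, hT, hmax⟩ := exists_max_image C Finset.card hne
  simp only [C, mem_filter, mem_powerset] at hT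
  refine ⟨T, hT.1, ⟨hT.2.1, ?_⟩, hT.2.2.trans (sum_le_sum_of_subset (filter_subset _ _))⟩
  intro u hu hz Sv hS
  by_contra hlt
  have huT : u ∉ T := by
    intro huT
    have : Sv = ∅ := by
      refine eq_empty_of_forall_notMem (fun y hy => ?_)
      obtain ⟨⟨l, hl, hw⟩, hn⟩ := hS y hy
      exact hn ⟨l, hl, u, huT, hw.rev⟩
    rw [this] at hlt
    simp at hlt
  have hdis : Disjoint (B T) Sv := by
    refine disjoint_left.2 (fun y hy hy' => (hS y hy').2 ?_)
    exact (mem_filter.1 hy).2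
  have hsub : B T ∪ Sv ⊆ B (insert u T) := by
    intro y hy
    rcases mem_union.1 hy with hy | hy
    · obtain ⟨h1, l, hl, h, hh, hw⟩ := mem_filter.1 hy
      exact mem_filter.2 ⟨h1, l, hl, h, mem_insert_of_mem hh, hw⟩
    · obtain ⟨⟨l, hl, hw⟩, _⟩ := hS y hy
      exact mem_filter.2 ⟨mem_range.2 (hw.lt hu), l, hl, u, mem_insert_self _ _, hw.rev⟩
  have h1 := sum_le_sum_of_subset (f := fun y => (G.adj d y).length) hsub
  rw [sum_union hdis] at h1
  have hmem : insert u T ∈ C := by
    simp only [C, mem_filter, mem_powerset]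
    refine ⟨insert_subset (mem_range.2 hu) hT.1, ?_, ?_⟩
    · intro a ha
      rcases mem_insert.1 ha with rfl | ha
      · exact hz
      · exact hT.2.1 a ha
    · rw [card_insert_of_notMem huT, add_mul]
      have := hT.2.2
      omega
  have := hmax _ hmem
  rw [card_insert_of_notMem huT] at this
  omega

/-- The invariant of the scan. -/
structure Inv (G : Gr) (d : Bool) (X t : ℕ) (Th T : Finset ℕ) (x i : ℕ) (L : List ℕ) (r : Bool) :
    Prop where
  len : L.length ≤ X + 1
  le : i ≤ L.length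
  mem : x ∈ L
  wk : ∀ y ∈ L, ∃ l, Wk G d l x y
  snd : r = true → Hits G d Th x
  sv : ∃ Sv : Finset ℕ, (∀ y ∈ Sv, y ∈ L.take i ∧ (∃ l ≤ t, Wk G d l x y) ∧
    ¬ HitsIn G (!d) t T y) ∧ L.length = 1 + ∑ y ∈ Sv, (G.adj d y).length
  cmp : r = false → ∀ y ∈ L.take i, ¬ HitsIn G d t Th y ∧
    (G.lay d y ≤ G.lay d x + t → ¬ Hits G d Th y ∨ ∀ z ∈ G.adj d y, z ∈ L)

theorem Inv.fin {X t : ℕ} {Th T : Finset ℕ} {x i : ℕ} {L : List ℕ} {r : Bool}
    (h : Inv G d X t Th T x i L r) (hi : L.length ≤ i) (hx : HitsIn G d (2 * t + 1) Th x) :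
    r = true := by
  by_contra hr
  have hr' : r = false := by simpa using hr
  have hc := h.cmp hr'
  rw [List.take_of_length_le hi] at hc
  obtain ⟨l, hl, a, ha, hw⟩ := hx
  have key : ∀ s l y, y ∈ L → Wk G d l y a → l ≤ t + s → G.lay d y + s ≤ G.lay d x + t + 1 →
      False := by
    intro s
    induction s with
    | zero => intro l y hy hw hl _; exact (hc y hy).1 ⟨l, hl, a, ha, hw⟩
    | succ s ih =>
      intro l y hy hw hl hlay
      by_cases hlt : l ≤ t
      · exact (hc y hy).1 ⟨l, hlt, a, ha, hw⟩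
      · rcases (hc y hy).2 (by omega) with h1 | h1
        · exact h1 ⟨l, a, ha, hw⟩
        · cases hw with
          | nil => omega
          | cons h2 h3 =>
            refine ih _ _ (h1 _ h2) h3 (by omega) ?_
            rw [G.grade _ _ _ h2]; omega
  exact key (t + 1) l x h.mem hw (by omega) (by omega)

theorem take_succ_mem {L : List ℕ} {i y : ℕ} (hi : i < L.length) :
    y ∈ L.take (i + 1) ↔ y ∈ L.take i ∨ y = L.getD i 0 := by
  rw [List.take_add_one, List.mem_append, List.getD_eq_getElem _ _ hi, List.getElem?_eq_getElem hi]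
  simp

theorem loop_spec {X t : ℕ} {Th T : Finset ℕ} {x : ℕ} (hx : x < G.N) {f1 f2 : ℕ → Bool}
    (hg : Greedy G X d t Th T)
    (h1 : ∀ y < G.N, (f1 y = true → Hits G (!d) T y) ∧ (HitsIn G (!d) t T y → f1 y = true))
    (h2 : ∀ y < G.N, (f2 y = true → Hits G d Th y) ∧ (HitsIn G d t Th y → f2 y = true)) :
    ∀ fuel i L r, Inv G d X t Th T x i L r → X + 1 ≤ i + fuel →
      (loop f1 f2 (G.adj d) (G.lay d) (G.lay d x + t) X fuel i L r = true → Hits G d Th x) ∧
      (HitsIn G d (2 * t + 1) Th x →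
        loop f1 f2 (G.adj d) (G.lay d) (G.lay d x + t) X fuel i L r = true) := by
  intro fuel
  induction fuel with
  | zero =>
    intro i L r h hf
    have := h.len
    exact ⟨h.snd, h.fin (by omega)⟩
  | succ fuel ih =>
    intro i L r h hf
    rw [loop]
    by_cases hi : i < L.length
    swap
    · rw [if_neg hi]
      exact ⟨h.snd, h.fin (by omega)⟩
    rw [if_pos hi]
    obtain ⟨y, hy⟩ : ∃ y, y = L.getD i 0 := ⟨_, rfl⟩
    have hts : ∀ z, z ∈ L.take (i + 1) ↔ z ∈ L.take i ∨ z = y := fun z => hy ▸ take_succ_mem hi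
    rw [← hy]
    have hyL : y ∈ L := List.mem_of_mem_take ((hts y).2 (Or.inr rfl))
    obtain ⟨ly, hly⟩ := h.wk y hyL
    have hyN : y < G.N := hly.lt hx
    have hsnd : (r || f2 y) = true → Hits G d Th x := by
      intro hh
      rcases Bool.or_eq_true_iff.1 hh with hh | hh
      · exact h.snd hh
      · obtain ⟨l, a, ha, hw⟩ := (h2 y hyN).1 hh
        exact ⟨_, a, ha, hly.trans hw⟩
    have hno : (r || f2 y) = false → r = false ∧ ¬ HitsIn G d t Th y := by
      intro hh
      obtain ⟨a1, a2⟩ := Bool.or_eq_false_iff.1 hh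
      refine ⟨a1, fun hc => ?_⟩
      rw [(h2 y hyN).2 hc] at a2
      exact absurd a2 (by simp)
    obtain ⟨Sv, hS, hlen⟩ := h.sv
    by_cases hc : G.lay d y ≤ G.lay d x + t ∧ y ∉ L.take i ∧ f1 y = false
    · rw [if_pos hc]
      obtain ⟨c1, c2, c3⟩ := hc
      have hlt : ly ≤ t := by have := hly.lay; omega
      have hnT : ¬ HitsIn G (!d) t T y := fun hh => by
        rw [(h1 y hyN).2 hh] at c3
        exact absurd c3 (by simp)
      have hyS : y ∉ Sv := fun hh => c2 (hS y hh).1
      by_cases hcap : L.length + (G.adj d y).length ≤ X + 1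
      · rw [if_pos hcap]
        have htk : (L ++ G.adj d y).take (i + 1) = L.take (i + 1) :=
          List.take_append_of_le_length (by omega)
        refine ih _ _ _ ⟨by simpa using hcap, by simp; omega, List.mem_append_left _ h.mem, ?_,
          hsnd, ⟨insert y Sv, ?_, ?_⟩, ?_⟩ (by omega)
        · intro z hz
          rcases List.mem_append.1 hz with hz | hz
          · exact h.wk z hz
          · exact ⟨_, hly.snoc hz⟩
        · intro z hz
          rw [htk, hts]
          rcases mem_insert.1 hz with rfl | hz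
          · exact ⟨Or.inr rfl, ⟨ly, hlt, hly⟩, hnT⟩
          · exact ⟨Or.inl (hS z hz).1, (hS z hz).2⟩
        · rw [sum_insert hyS, List.length_append, hlen]; omega
        · intro hh z hz
          obtain ⟨a1, a2⟩ := hno hh
          rw [htk, hts] at hz
          rcases hz with hz | rfl
          · refine ⟨(h.cmp a1 z hz).1, fun hl => ?_⟩
            exact ((h.cmp a1 z hz).2 hl).imp id (fun q w hw => List.mem_append_left _ (q w hw))
          · exact ⟨a2, fun _ => Or.inr (fun w hw => List.mem_append_right _ hw)⟩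
      · rw [if_neg hcap]
        refine ih _ _ _ ⟨h.len, hi, h.mem, h.wk, fun _ => ?_, ⟨Sv, ?_, hlen⟩, by simp⟩ (by omega)
        · by_contra hz
          have := hg.2 x hx hz (insert y Sv) (by
            intro z hz
            rcases mem_insert.1 hz with rfl | hz
            · exact ⟨⟨ly, hlt, hly⟩, hnT⟩
            · exact (hS z hz).2)
          rw [sum_insert hyS] at this
          omega
        · intro z hz
          exact ⟨(hts z).2 (Or.inl (hS z hz).1), (hS z hz).2⟩
    · rw [if_neg hc]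
      refine ih _ _ _ ⟨h.len, hi, h.mem, h.wk, hsnd, ⟨Sv, ?_, hlen⟩, ?_⟩ (by omega)
      · intro z hz
        exact ⟨(hts z).2 (Or.inl (hS z hz).1), (hS z hz).2⟩
      · intro hh z hz
        obtain ⟨a1, a2⟩ := hno hh
        rcases (hts z).1 hz with hz | rfl
        · exact h.cmp a1 z hz
        · refine ⟨a2, fun hl => ?_⟩
          by_cases hm : z ∈ L.take i
          · exact (h.cmp a1 z hm).2 hl
          · have hf1 : f1 z = true := by
              by_contra hf1
              exact hc ⟨hl, hm, by simpa using hf1⟩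
            obtain ⟨l, u, hu, hw⟩ := (h1 z hyN).1 hf1
            refine Or.inl (fun ⟨l', a, ha, hw'⟩ => hg.1 u hu ⟨l + l', a, ha, ?_⟩)
            have := hw.rev
            rw [Bool.not_not] at this
            exact this.trans hw'

theorem qry_spec (G : Gr) (Lf : ℕ → List ℕ) (X : ℕ) : ∀ (j : ℕ) (d : Bool) (idx : ℕ)
    (Th : Finset ℕ), Good G Lf X j d idx Th → ∀ x < G.N,
      (qry G Lf X j d idx x = true → Hits G d Th x) ∧
      (HitsIn G d (2 ^ j - 1) Th x → qry G Lf X j d idx x = true) := by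
  intro j
  induction j with
  | zero =>
    intro d idx Th h x _
    rw [qry, decide_eq_true_iff, h x]
    refine ⟨fun hh => ⟨0, x, hh, Wk.nil x⟩, ?_⟩
    rintro ⟨l, hl, a, ha, hw⟩
    cases hw with
    | nil => exact ha
    | cons _ _ => simp at hl
  | succ j ih =>
    rintro d idx Th ⟨T, hg, g1, g2⟩ x hx
    rw [qry]
    have e : 2 ^ (j + 1) - 1 = 2 * (2 ^ j - 1) + 1 := by
      have := Nat.one_le_two_pow (n := j)
      rw [pow_succ]; omega
    rw [e]
    refine loop_spec hx hg (ih _ _ _ g1) (ih _ _ _ g2) _ _ _ _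
      ⟨by simp, by simp, by simp, ?_, by simp, ⟨∅, by simp, by simp⟩, by simp⟩ (by omega)
    intro y hy
    rw [List.mem_singleton.1 hy]
    exact ⟨0, Wk.nil x⟩

/-- Small sorted leaves exist. -/
theorem exists_leaves (G : Gr) (X M : ℕ)
    (hM : ∀ d, ∑ y ∈ range G.N, (G.adj d y).length ≤ M) :
    ∀ (j : ℕ) (d : Bool) (Th : Finset ℕ), Th ⊆ range G.N → ∃ F : ℕ → List ℕ,
      (∀ i, (F i).Pairwise (· < ·) ∧ ∀ y ∈ F i, y < G.N) ∧
      ∑ i ∈ range (2 ^ j), (F i).length ≤ Th.card + (2 ^ j - 1) * (M / (X + 1)) ∧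
      ∀ (Lf : ℕ → List ℕ) (idx : ℕ), (∀ i < 2 ^ j, Lf (idx * 2 ^ j + i) = F i) →
        Good G Lf X j d idx Th := by
  intro j
  induction j with
  | zero =>
    intro d Th hTh
    refine ⟨fun _ => Th.sort (· ≤ ·), fun _ => ⟨(Finset.sortedLT_sort Th).pairwise, ?_⟩, by simp, ?_⟩
    · intro y hy
      exact mem_range.1 (hTh ((Finset.mem_sort _).1 hy))
    · intro Lf idx h y
      have := h 0 (by simp)
      simp only [pow_zero, mul_one, add_zero] at this
      rw [this, Finset.mem_sort]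
  | succ j ih =>
    intro d Th hTh
    obtain ⟨T, hT, hg, hc⟩ := exists_greedy G X d (2 ^ j - 1) Th
    obtain ⟨F1, a1, a2, a3⟩ := ih (!d) T hT
    obtain ⟨F2, b1, b2, b3⟩ := ih d Th hTh
    have hTc : T.card ≤ M / (X + 1) := (Nat.le_div_iff_mul_le (by omega)).2 (hc.trans (hM d))
    have e : 2 ^ (j + 1) = 2 ^ j + 2 ^ j := by rw [pow_succ]; omega
    refine ⟨fun i => if i < 2 ^ j then F1 i else F2 (i - 2 ^ j), ?_, ?_, ?_⟩
    · intro i
      by_cases hi : i < 2 ^ j
      · simpa [hi] using a1 i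
      · simpa [hi] using b1 (i - 2 ^ j)
    · rw [e, sum_range_add]
      have s1 : ∑ i ∈ range (2 ^ j), (if i < 2 ^ j then F1 i else F2 (i - 2 ^ j)).length =
          ∑ i ∈ range (2 ^ j), (F1 i).length :=
        sum_congr rfl (fun i hi => by rw [if_pos (mem_range.1 hi)])
      have s2 : ∑ i ∈ range (2 ^ j),
          (if 2 ^ j + i < 2 ^ j then F1 (2 ^ j + i) else F2 (2 ^ j + i - 2 ^ j)).length =
          ∑ i ∈ range (2 ^ j), (F2 i).length :=
        sum_congr rfl (fun i _ => by rw [if_neg (by omega), Nat.add_sub_cancel_left])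
      rw [s1, s2]
      obtain ⟨q, hq⟩ : ∃ q, 2 ^ j = q + 1 := ⟨2 ^ j - 1, by
        have := Nat.one_le_two_pow (n := j); omega⟩
      rw [hq] at a2 b2 ⊢
      have e2 : q + 1 + (q + 1) - 1 = q + q + 1 := by omega
      rw [e2, add_mul, add_mul, one_mul]
      simp only [Nat.add_sub_cancel] at a2 b2
      omega
    · intro Lf idx h
      refine ⟨T, hg, a3 Lf _ (fun i hi => ?_), b3 Lf _ (fun i hi => ?_)⟩
      · have := h i (by omega)
        dsimp only at this
        rw [if_pos hi] at this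
        rw [← this, pow_succ]
        exact congrArg Lf (by ring)
      · have := h (2 ^ j + i) (by omega)
        dsimp only at this
        rw [if_neg (by omega), Nat.add_sub_cancel_left] at this
        rw [← this, pow_succ]
        exact congrArg Lf (by ring)

end Pool.Agent.Lib.MP_a349b4_lc.GZ
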