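import Pool.Agent.Lib.MP_a349b4_lc.GZ.Gap
import Pool.Agent.Lib.MP_a349b4_lc.GZ.Cover

/-! The layered graph, the target sets of the roots, and the family of all stored sets. -/

set_option autoImplicit false

namespace Pool.Agent.Lib.MP_a349b4_lc.GZ

open Finset

variable {n : ℕ}

/-- Edges between consecutive layers; vertex `x` of layer `i` has number `i * n + x`. -/
def ed (E : Finset (Fin n × Fin n)) (q : ℕ) : Finset (ℕ × ℕ) :=
  (range (q - 1) ×ˢ (E ∪ univ.image (fun x : Fin n => (x, x)))).image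
    (fun a => (a.1 * n + a.2.1, (a.1 + 1) * n + a.2.2))

theorem mem_ed {E : Finset (Fin n × Fin n)} {q a b : ℕ} : (a, b) ∈ ed E q ↔
    ∃ (i : ℕ) (x y : Fin n), i + 1 < q ∧ (x = y ∨ (x, y) ∈ E) ∧ a = i * n + x ∧
      b = (i + 1) * n + y := by
  simp only [ed, mem_image, mem_product, mem_range, mem_union, mem_univ, true_and, Prod.mk.injEq]
  constructor
  · rintro ⟨⟨i, x, y⟩, ⟨h1, h2⟩, h3, h4⟩
    refine ⟨i, x, y, by simp only at h1; omega, ?_, h3.symm, h4.symm⟩
    rcases h2 with h2 | ⟨z, h2⟩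
    · exact Or.inr h2
    · simp only [Prod.mk.injEq] at h2
      exact Or.inl (h2.1.symm.trans h2.2)
  · rintro ⟨i, x, y, h1, h2, rfl, rfl⟩
    refine ⟨⟨i, x, y⟩, ⟨by simp only; omega, ?_⟩, rfl, rfl⟩
    rcases h2 with rfl | h2
    · exact Or.inr ⟨x, rfl⟩
    · exact Or.inl h2

theorem ed_card (E : Finset (Fin n × Fin n)) (q : ℕ) : (ed E q).card ≤ q * (n + E.card) := by
  refine card_image_le.trans ?_
  rw [card_product, card_range]
  refine Nat.mul_le_mul (by omega) ((card_union_le _ _).trans ?_)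
  have := card_image_le (s := (univ : Finset (Fin n))) (f := fun x : Fin n => (x, x))
  simp only [card_univ, Fintype.card_fin] at this
  omega

theorem code_div (i : ℕ) (x : Fin n) : (i * n + x) / n = i := by
  have hn : 0 < n := Fin.pos x
  rw [Nat.add_comm, Nat.add_mul_div_right _ _ hn, Nat.div_eq_of_lt x.2, Nat.zero_add]

theorem code_lt {i q : ℕ} (x : Fin n) (h : i < q) : i * n + x < q * n := by
  have := Nat.mul_le_mul_right n (Nat.succ_le_of_lt h)
  have := x.2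
  rw [Nat.succ_mul] at *
  omega

theorem code_inj {i i' : ℕ} {x x' : Fin n} (h : i * n + x = i' * n + x') : i = i' ∧ x = x' := by
  have h1 : i = i' := by rw [← code_div i x, h, code_div]
  subst h1
  exact ⟨rfl, Fin.ext (by omega)⟩

noncomputable def nbr (E : Finset (Fin n × Fin n)) (q : ℕ) : Bool → ℕ → List ℕ
  | true, a => (((ed E q).filter (fun e => e.1 = a)).image Prod.snd).toList
  | false, a => (((ed E q).filter (fun e => e.2 = a)).image Prod.fst).toList

theorem mem_nbr_t {E : Finset (Fin n × Fin n)} {q a b : ℕ} :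
    b ∈ nbr E q true a ↔ (a, b) ∈ ed E q := by
  simp only [nbr, mem_toList, mem_image, mem_filter]
  exact ⟨fun ⟨e, ⟨h1, h2⟩, h3⟩ => h2 ▸ h3 ▸ h1, fun h => ⟨_, ⟨h, rfl⟩, rfl⟩⟩

theorem mem_nbr_f {E : Finset (Fin n × Fin n)} {q a b : ℕ} :
    b ∈ nbr E q false a ↔ (b, a) ∈ ed E q := by
  simp only [nbr, mem_toList, mem_image, mem_filter]
  exact ⟨fun ⟨e, ⟨h1, h2⟩, h3⟩ => h2 ▸ h3 ▸ h1, fun h => ⟨_, ⟨h, rfl⟩, rfl⟩⟩

/-- The layered graph with `q` layers. -/
noncomputable def lg (E : Finset (Fin n × Fin n)) (q : ℕ) : Gr where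
  N := q * n
  adj := nbr E q
  lay d a := if d then a / n else q - a / n
  lt := by
    intro d a b h
    cases d
    · obtain ⟨i, x, y, h1, -, rfl, -⟩ := mem_ed.1 (mem_nbr_f.1 h)
      exact code_lt x (by omega)
    · obtain ⟨i, x, y, h1, -, -, rfl⟩ := mem_ed.1 (mem_nbr_t.1 h)
      exact code_lt y h1
  symm := by
    intro d a b h
    cases d
    · exact mem_nbr_t.2 (mem_nbr_f.1 h)
    · exact mem_nbr_f.2 (mem_nbr_t.1 h)
  grade := by
    intro d a b h
    cases d
    · obtain ⟨i, x, y, h1, -, rfl, rfl⟩ := mem_ed.1 (mem_nbr_f.1 h)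
      simp only [code_div, Bool.false_eq_true, if_false]
      omega
    · obtain ⟨i, x, y, h1, -, rfl, rfl⟩ := mem_ed.1 (mem_nbr_t.1 h)
      simp only [code_div, if_true]

theorem fib_le (S : Finset (ℕ × ℕ)) (f g : ℕ × ℕ → ℕ) (N : ℕ) :
    ∑ a ∈ range N, ((S.filter (fun e => f e = a)).image g).toList.length ≤ S.card := by
  refine le_trans (sum_le_sum (fun a _ => ?_))
    ((sum_card_fiberwise_eq_card_filter S (range N) f).le.trans (card_filter_le _ _))
  rw [length_toList]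
  exact card_image_le

theorem lg_deg (E : Finset (Fin n × Fin n)) (q : ℕ) (d : Bool) :
    ∑ y ∈ range (lg E q).N, ((lg E q).adj d y).length ≤ q * (n + E.card) := by
  cases d
  · exact (fib_le _ _ _ _).trans (ed_card E q)
  · exact (fib_le _ _ _ _).trans (ed_card E q)

theorem wk_st {E : Finset (Fin n × Fin n)} {q l a b : ℕ} (h : Wk (lg E q) true l a b) :
    ∀ (i i' : ℕ) (x y : Fin n), a = i * n + x → b = i' * n + y → i' = i + l ∧ Lz E l x y := by
  induction h with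
  | nil a =>
    rintro i i' x y rfl h
    obtain ⟨rfl, rfl⟩ := code_inj h
    exact ⟨rfl, Lz.nil x⟩
  | cons h1 _ ih =>
    rintro i i' x y rfl hb
    obtain ⟨i0, x0, y0, -, h3, h4, h5⟩ := mem_ed.1 (mem_nbr_t.1 h1)
    obtain ⟨rfl, rfl⟩ := code_inj h4
    obtain ⟨k1, k2⟩ := ih _ _ _ _ h5 hb
    exact ⟨by omega, Lz.cons h3 k2⟩

theorem st_wk {E : Finset (Fin n × Fin n)} {q l : ℕ} {x y : Fin n} (h : Lz E l x y) :
    ∀ i, i + l < q → Wk (lg E q) true l (i * n + x) ((i + l) * n + y) := by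
  induction h with
  | nil x => exact fun i _ => Wk.nil _
  | @cons l x y z h1 _ ih =>
    intro i hi
    have e : i + (l + 1) = i + 1 + l := by omega
    rw [e]
    exact Wk.cons (mem_nbr_t.2 (mem_ed.2 ⟨i, x, y, by omega, h1, rfl, rfl⟩)) (ih _ (by omega))

theorem exists_targets (E : Finset (Fin n × Fin n)) (k q : ℕ) (hq : 0 < q) :
    ∃ Th : Fin n → Finset ℕ, ∀ v, Th v ⊆ range (lg E q).N ∧
      (Th v).card ≤ (if k < q then 0 else n / q) + 1 ∧ ∀ u : Fin n, (Hits (lg E q) true (Th v) u → Lz E k u v) ∧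
        (Lz E k u v → HitsIn (lg E q) true (q - 1) (Th v) u) := by
  classical
  obtain ⟨H, h1, h2⟩ := cover_levels E k q hq
  let th : Fin n → Fin n → ℕ := fun v h =>
    Nat.findGreatest (fun i => i ≤ k ∧ Lz E (k - i) h v) (q - 1)
  refine ⟨fun v => ((H v).filter (fun h => Lz E k h v)).image (fun h => th v h * n + h),
    fun v => ⟨?_, card_image_le.trans ((card_filter_le _ _).trans (h1 v)), fun u => ⟨?_, ?_⟩⟩⟩
  · intro a ha
    obtain ⟨h, -, rfl⟩ := mem_image.1 ha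
    have : th v h ≤ q - 1 := Nat.findGreatest_le _
    exact mem_range.2 (code_lt h (by omega))
  · rintro ⟨l, a, ha, hw⟩
    obtain ⟨h, hh, rfl⟩ := mem_image.1 ha
    obtain ⟨k1, k2⟩ := wk_st hw 0 _ u h (by simp) rfl
    have k3 : th v h ≤ k ∧ Lz E (k - th v h) h v :=
      Nat.findGreatest_spec (P := fun i => i ≤ k ∧ Lz E (k - i) h v) (Nat.zero_le _)
        ⟨Nat.zero_le _, (mem_filter.1 hh).2⟩
    exact (k2.trans k3.2).mono (by omega)
  · intro hu
    obtain ⟨h, hh, i, hi, hk, s1, s2⟩ := h2 v u hu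
    have k1 : i ≤ th v h := Nat.le_findGreatest hi ⟨hk, s2⟩
    have k2 : th v h ≤ q - 1 := Nat.findGreatest_le _
    refine ⟨th v h, k2, _, mem_image.2 ⟨h, mem_filter.2 ⟨hh, s2.mono (by omega)⟩, rfl⟩, ?_⟩
    have := st_wk (q := q) (s1.mono k1) 0 (by omega)
    simpa using this

theorem sum_blocks (f : ℕ → ℕ) (q c : ℕ) :
    ∀ m, (∀ a < m, ∑ i ∈ range q, f (a * q + i) ≤ c) → ∑ z ∈ range (m * q), f z ≤ m * c := by
  intro m
  induction m with
  | zero => simp
  | succ m ih =>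
    intro h
    rw [Nat.succ_mul, sum_range_add, Nat.succ_mul]
    exact Nat.add_le_add (ih (fun a ha => h a (by omega))) (h m (by omega))

/-- All stored sets, with their total size, and the meaning of the query. -/
theorem exists_family (E : Finset (Fin n × Fin n)) (k j X : ℕ) : ∃ Lf : ℕ → List ℕ,
    (∀ z, (Lf z).Pairwise (· < ·) ∧ ∀ y ∈ Lf z, y < 2 ^ j * n) ∧
    ∑ z ∈ range (2 ^ j * n), (Lf z).length ≤
      n * ((if k < 2 ^ j then 0 else n / 2 ^ j) + 1 + 2 ^ j * (2 ^ j * (n + E.card) / (X + 1))) ∧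
    ∀ u v : Fin n, qry (lg E (2 ^ j)) Lf X j true v u = true ↔ LG.Reach E k u v := by
  have hq : 0 < 2 ^ j := Nat.two_pow_pos j
  obtain ⟨Th, hTh⟩ := exists_targets E k (2 ^ j) hq
  choose F f1 f2 f3 using fun v : Fin n =>
    exists_leaves (lg E (2 ^ j)) X _ (lg_deg E (2 ^ j)) j true (Th v) (hTh v).1
  let Lf : ℕ → List ℕ := fun z => if h : z / 2 ^ j < n then F ⟨_, h⟩ (z % 2 ^ j) else []
  have hL : ∀ (v : Fin n), ∀ i < 2 ^ j, Lf (v * 2 ^ j + i) = F v i := by
    intro v i hi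
    have e1 : (v * 2 ^ j + i) / 2 ^ j = v := by
      rw [Nat.add_comm, Nat.add_mul_div_right _ _ hq, Nat.div_eq_of_lt hi, Nat.zero_add]
    have e2 : (v * 2 ^ j + i) % 2 ^ j = i := by
      rw [Nat.add_comm, Nat.add_mul_mod_self_right, Nat.mod_eq_of_lt hi]
    simp only [Lf, e1, e2, dif_pos v.2]
  refine ⟨Lf, fun z => ?_, ?_, fun u v => ?_⟩
  · by_cases h : z / 2 ^ j < n
    · simp only [Lf, dif_pos h]
      exact f1 _ _
    · simp [Lf, dif_neg h]
  · rw [Nat.mul_comm (2 ^ j) n]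
    refine sum_blocks (fun z => (Lf z).length) _ _ n (fun a ha => ?_)
    rw [sum_congr rfl (fun i hi => congrArg List.length (hL ⟨a, ha⟩ i (mem_range.1 hi)))]
    refine (f2 ⟨a, ha⟩).trans (Nat.add_le_add (hTh _).2.1 (Nat.mul_le_mul_right _ (by omega)))
  · have hu : (u : ℕ) < 2 ^ j * n := by simpa using code_lt u hq
    have := qry_spec _ Lf X j true v _ (f3 v Lf v (hL v)) u hu
    rw [reach_iff]
    exact ⟨fun h => ((hTh v).2.2 u).1 (this.1 h), fun h => this.2 (((hTh v).2.2 u).2 h)⟩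

end Pool.Agent.Lib.MP_a349b4_lc.GZ
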