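import Pool.Agent.Lib.MP_a349b4_lc.LG.Comp
import Pool.Agent.Lib.MP_a349b4_lc.GZ.Gap

/-! The data seen by the query program and its straight parts. -/

set_option autoImplicit false

namespace Pool.Agent.Lib.MP_a349b4_lc.GZ

open Function LG

section
variable {w : ℕ} {D : List ℕ} {r W : ℕ → ℕ} {Q : (ℕ → ℕ) → (ℕ → ℕ) → Prop} {t : ℕ} {c : Cmd}
  {i j : ℕ}

theorem tr_step {t1 : ℕ} (h0 : r i < r j)
    (h : Tr w D c r W (fun r' W' => Tr w D (.loop i j c) r' W' Q t) t1) :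
    Tr w D (.loop i j c) r W Q (t + t1 + 2) :=
  let ⟨_, _, _, h1, h2, _, _, _, k1, k2, k3⟩ := h
  ⟨_, _, _, .loopT h0 h1 k1, by omega, k3⟩

theorem tr_exit (h0 : ¬ r i < r j) (h : Q r W) : Tr w D (.loop i j c) r W Q 2 :=
  ⟨_, _, _, .loopF h0, le_rfl, h⟩

theorem tr_wh (I : ℕ → (ℕ → ℕ) → (ℕ → ℕ) → Prop)
    (hs : ∀ m r W, I (m + 1) r W → r i < r j → Tr w D c r W (I m) t)
    (h0 : ∀ r W, I 0 r W → ¬ r i < r j) (hQ : ∀ m r W, I m r W → ¬ r i < r j → Q r W) :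
    ∀ N r W, I N r W → Tr w D (.loop i j c) r W Q (N * (t + 2) + 2) := by
  intro N
  induction N with
  | zero => exact fun r W h => (tr_exit (h0 _ _ h) (hQ _ _ _ h (h0 _ _ h))).le (by omega)
  | succ N ih =>
    intro r W h
    by_cases k : r i < r j
    · exact (tr_step k ((hs _ _ _ h k).imp ih)).le (by rw [Nat.succ_mul]; omega)
    · exact (tr_exit k (hQ _ _ _ h k)).le (by omega)

def sv : ℕ → ℕ → Cmd → Cmd
  | 0, _, c => c
  | m + 1, k, c => .seq (.write 20 k) (.seq (.bin .add 20 20 1) (sv m (k + 1) c))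

def rs : ℕ → ℕ → Cmd → Cmd
  | 0, _, c => c
  | m + 1, k, c => .seq (.read k 20) (.seq (.bin .add 20 20 1) (rs m (k + 1) c))

theorem tr_sv : ∀ (m k : ℕ) (r W : ℕ → ℕ), r 1 = 1 → r 20 + m < 2 ^ w → k + m ≤ 20 →
    (∀ r' W', (∀ j, j ≠ 20 → r' j = r j) → (∀ q < m, W' (r 20 + q) = r (k + q)) →
      (∀ a, a < r 20 ∨ r 20 + m ≤ a → W' a = W a) → Tr w D c r' W' Q t) →
    Tr w D (sv m k c) r W Q (t + 2 * m) := by
  intro m
  induction m with
  | zero => exact fun k r W _ _ _ h => h r W (fun _ _ => rfl) (fun _ h => by omega) fun _ _ => rfl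
  | succ m ih =>
    intro k r W h1 h2 h3 h
    refine Tr.le (t' := t + 2 * m + 1 + 1) ?_ (by omega)
    refine Tr.write _ _ rfl rfl ?_
    refine Tr.bin (r 20 + 1) (by simp [Op.ev, h1]) (by omega) ?_
    refine ih _ _ _ (by simp [h1]) (by simp; omega) (by omega) fun r' W' a1 a2 a3 => ?_
    rw [update_self] at a2 a3
    refine h r' W' (fun j hj => by rw [a1 j hj, update_of_ne hj]) (fun q hq => ?_) fun a ha => ?_
    · cases q with
      | zero => rw [a3 _ (by omega)]; simp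
      | succ q =>
        have := a2 q (by omega)
        rw [update_of_ne (by omega)] at this
        rw [show r 20 + (q + 1) = r 20 + 1 + q by omega, this]
        congr 1
        omega
    · rw [a3 a (by omega), update_of_ne (by omega)]

theorem tr_rs : ∀ (m k : ℕ) (r : ℕ → ℕ), r 1 = 1 → r 20 + m < 2 ^ w → k + m ≤ 20 → 1 < k →
    (∀ r', (∀ j < k, r' j = r j) → (∀ q < m, r' (k + q) = W (r 20 + q)) → Tr w D c r' W Q t) →
    Tr w D (rs m k c) r W Q (t + 2 * m) := by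
  intro m
  induction m with
  | zero => exact fun k r _ _ _ _ h => h r (fun _ _ => rfl) fun _ h => by omega
  | succ m ih =>
    intro k r h1 h2 h3 h4 h
    have e1 : update r k (W (r 20)) 20 = r 20 := update_of_ne (by omega) _ _
    have e2 : update r k (W (r 20)) 1 = 1 := (update_of_ne (by omega) _ _).trans h1
    refine Tr.le (t' := t + 2 * m + 1 + 1) ?_ (by omega)
    refine Tr.read _ rfl ?_
    refine Tr.bin (r 20 + 1) (by rw [e1, e2]; rfl) (by omega) ?_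
    refine ih _ _ (by simpa using e2) (by simp; omega) (by omega) (by omega) fun r' a1 a2 => ?_
    rw [update_self] at a2
    refine h r' (fun j hj => ?_) fun q hq => ?_
    · rw [a1 j (by omega), update_of_ne (by omega), update_of_ne (by omega)]
    · cases q with
      | zero => rw [a1 _ (by omega), update_of_ne (by omega)]; simp
      | succ q =>
        have := a2 q (by omega)
        rw [show r 20 + (q + 1) = r 20 + 1 + q by omega, ← this]
        congr 1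
        omega
end

theorem sorted_getD {l : List ℕ} (h : l.Pairwise (· < ·)) {a b : ℕ} (hab : a < b)
    (hb : b < l.length) : l.getD a 0 < l.getD b 0 := by
  rw [List.getD_eq_getElem _ _ hb, List.getD_eq_getElem _ _ (hab.trans hb)]
  exact List.pairwise_iff_getElem.1 h a b _ hb hab

theorem mem_iff_getD {l : List ℕ} {x : ℕ} : x ∈ l ↔ ∃ q < l.length, l.getD q 0 = x := by
  rw [List.mem_iff_getElem]
  exact exists_congr fun q => ⟨fun ⟨h, k⟩ => ⟨h, by rw [List.getD_eq_getElem _ _ h, k]⟩,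
    fun ⟨h, k⟩ => ⟨h, by rwa [List.getD_eq_getElem _ _ h] at k⟩⟩

structure Env where
  G : Gr
  Lf : ℕ → List ℕ
  X : ℕ
  J : ℕ
  Lg : ℕ
  w : ℕ
  B : ℕ
  D : List ℕ
  off : ℕ → ℕ
  Fm : ℕ → List ℕ

structure Env.Ok (e : Env) : Prop where
  c1 : ∀ a ≤ 4 * e.G.N, e.D.getD a 0 = e.off a
  c2 : ∀ a < 4 * e.G.N, e.off (a + 1) = e.off a + (e.Fm a).length ∧
    ∀ q < (e.Fm a).length, e.D.getD (e.off a + q) 0 = (e.Fm a).getD q 0
  fm : ∀ z < e.G.N, e.Fm (4 * z) = e.G.adj false z ∧ e.Fm (4 * z + 1) = e.G.adj true z ∧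
    e.Fm (4 * z + 2) = [e.G.lay false z, e.G.lay true z, e.X, 2 ^ e.J] ∧ e.Fm (4 * z + 3) = e.Lf z
  srt : ∀ z < e.G.N, (e.Lf z).Pairwise (· < ·) ∧ (e.Lf z).length < 2 ^ e.Lg
  b1 : e.off (4 * e.G.N) ≤ e.B
  b2 : 4 * e.G.N ≤ e.B
  b3 : 2 ^ e.J * (e.X + 20) ≤ e.B
  b4 : ∀ d, ∀ z < e.G.N, e.G.lay d z ≤ e.B
  b5 : 4 * e.B < 2 ^ e.w

variable {e : Env}

theorem Env.Ok.off_le (h : e.Ok) {a : ℕ} (ha : a ≤ 4 * e.G.N) : e.off a ≤ e.B := by
  induction ha using Nat.decreasingInduction with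
  | self => exact h.b1
  | of_succ k hk ih => have := (h.c2 k hk).1; omega

theorem Env.Ok.adj (h : e.Ok) (d : Bool) {z : ℕ} (hz : z < e.G.N) :
    e.Fm (z * 4 + d.toNat) = e.G.adj d z := by
  rw [Nat.mul_comm]
  cases d
  exacts [(h.fm z hz).1, (h.fm z hz).2.1]

theorem Env.Ok.lay (h : e.Ok) (d : Bool) {z : ℕ} (hz : z < e.G.N) :
    e.D.getD (e.off (z * 4 + 2) + d.toNat) 0 = e.G.lay d z := by
  have h1 := (h.c2 (4 * z + 2) (by omega)).2
  rw [(h.fm z hz).2.2.1] at h1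
  rw [Nat.mul_comm]
  cases d
  exacts [h1 0 (by simp), h1 1 (by simp)]

theorem Env.Ok.frame (h : e.Ok) {j : ℕ} (hj : j ≤ e.J) :
    2 ^ j * (e.X + 20) ≤ e.B ∧ e.X + 20 ≤ 2 ^ j * (e.X + 20) ∧ 2 ^ j ≤ 2 ^ j * (e.X + 20) ∧
      2 ^ j ≤ 2 ^ e.J :=
  have k : 2 ^ j ≤ 2 ^ e.J := Nat.pow_le_pow_right (by omega) hj
  ⟨(Nat.mul_le_mul_right _ k).trans h.b3, Nat.le_mul_of_pos_left _ (Nat.two_pow_pos j),
    Nat.le_mul_of_pos_right _ (by omega), k⟩

structure Glob (e : Env) (r : ℕ → ℕ) : Prop where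
  g0 : r 0 = 0
  g1 : r 1 = 1
  g2 : r 2 = 2
  g3 : r 3 = 3
  g4 : r 4 = 4
  g5 : r 5 = e.X + 2
  g6 : r 6 = e.X + 20
  g7 : r 7 = 2 ^ e.J + 1

theorem Glob.frame {r r' : ℕ → ℕ} (h : Glob e r) (hf : ∀ j < 8, r' j = r j) : Glob e r' := by
  constructor <;> rw [hf _ (by omega)]
  exacts [h.g0, h.g1, h.g2, h.g3, h.g4, h.g5, h.g6, h.g7]

def bsBody : Cmd :=
  .seq (.bin .add 27 25 26) <| .seq (.bin .div 27 27 2) <| .seq (.load 28 27) <|
  .ite 28 13 (.seq (.bin .add 25 27 1) .skip) <| .ite 13 28 (.seq (.bin .add 26 27 0) .skip) <|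
  .seq (.const 10 1) <| .seq (.bin .add 26 25 0) .skip

def leaf : Cmd :=
  .seq (.bin .mul 21 12 4) <| .seq (.bin .add 21 21 3) <| .seq (.load 25 21) <|
  .seq (.bin .add 21 21 1) <| .seq (.load 26 21) <| .seq (.const 10 0) <|
  .seq (.loop 25 26 bsBody) <| .seq (.bin .mul 8 8 2) <| .seq (.const 9 2) .skip

theorem leaf_spec (he : e.Ok) {r W : ℕ → ℕ} (hG : Glob e r) {idx x : ℕ} (h8 : r 8 = 1)
    (h12 : r 12 = idx) (h13 : r 13 = x) (hi : idx < e.G.N) :
    Tr e.w e.D leaf r W (fun r' W' => W' = W ∧ Glob e r' ∧ r' 8 = 2 ∧ r' 9 = 2 ∧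
      r' 10 = (decide (x ∈ e.Lf idx)).toNat) (2 + (e.Lg * (9 + 2) + 2) + 6) := by
  have b2 := he.b2
  have b5 := he.b5
  have b6 := (he.frame (Nat.zero_le _)).1
  obtain ⟨s1, s2⟩ := he.srt idx hi
  obtain ⟨c1, c2⟩ := he.c2 (4 * idx + 3) (by omega)
  have o1 := he.off_le (a := 4 * idx + 3 + 1) (by omega)
  rw [(he.fm idx hi).2.2.2] at c1 c2
  obtain ⟨l, hl⟩ : ∃ l, e.Lf idx = l := ⟨_, rfl⟩
  obtain ⟨o, ho⟩ : ∃ o, e.off (4 * idx + 3) = o := ⟨_, rfl⟩
  rw [hl] at s1 s2 c1 c2 ⊢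
  rw [ho] at c1 c2
  refine Tr.bin (4 * idx) (by simp [Op.ev, h12, hG.g4, Nat.mul_comm]) (by omega) ?_
  refine Tr.bin (4 * idx + 3) (by simp [Op.ev, hG.g3]) (by omega) ?_
  refine Tr.load o (by simpa [ho] using he.c1 (4 * idx + 3) (by omega)) ?_
  refine Tr.bin (4 * idx + 3 + 1) (by simp [Op.ev, hG.g1]) (by omega) ?_
  refine Tr.load (o + l.length) (by simpa [c1] using he.c1 (4 * idx + 3 + 1) (by omega)) ?_
  refine Tr.const (by omega) ?_
  refine Tr.seq (Q' := fun r' W' => W' = W ∧ (∀ j < 10, r' j = r j) ∧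
    r' 10 = (decide (x ∈ l)).toNat) (tr_wh (t := 9) (fun m r' W' => W' = W ∧
      (∀ j < 14, j ≠ 10 → r' j = r j) ∧ ∃ lo hi, r' 25 = o + lo ∧ r' 26 = o + hi ∧
        hi ≤ l.length ∧ hi < lo + 2 ^ m ∧ (r' 10 = 1 ∧ x ∈ l ∧ hi ≤ lo ∨
          r' 10 = 0 ∧ ∀ q < l.length, l.getD q 0 = x → lo ≤ q ∧ q < hi)) ?_ ?_ ?_ _ _ _ ?_) ?_
  · rintro m r' W' ⟨rfl, hf, lo, hi, p1, p2, p3, p4, p5⟩ hc
    have G := hG.frame fun j hj => hf j (by omega) (by omega)
    have k13 := (hf 13 (by omega) (by omega)).trans h13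
    have hm := Nat.two_pow_pos m
    rw [pow_succ] at p4
    obtain ⟨p5, p6⟩ := p5.resolve_left (by omega)
    obtain ⟨md, hmd⟩ : ∃ md, md = (lo + hi) / 2 := ⟨_, rfl⟩
    refine Tr.le (t' := 2 + 2 + 2 + 3) ?_ le_rfl
    refine Tr.bin (o + lo + (o + hi)) (by simp [Op.ev, p1, p2]) (by omega) ?_
    refine Tr.bin (o + md) (by simp [Op.ev, G.g2]; omega) (by omega) ?_
    refine Tr.load (l.getD md 0) (by simpa using c2 md (by omega)) ?_
    refine Tr.ite (fun h => Tr.le (t' := 0 + 1) ?_ (by omega)) fun h =>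
      Tr.ite (fun h' => Tr.le (t' := 0 + 1) ?_ (by omega)) fun h' => ?_
    · refine Tr.bin (o + (md + 1)) (by simp [Op.ev, G.g1, Nat.add_assoc]) (by omega) ?_
      refine Tr.skip ⟨rfl, fun j h1 h2 => ?_, md + 1, hi, by simp, by simp [p2], p3, by omega,
        Or.inr ⟨by simp [p5], fun q h1 h2 => ⟨?_, (p6 q h1 h2).2⟩⟩⟩
      · simp (disch := omega) only [update_of_ne]
        exact hf j h1 h2
      · have h' : l.getD md 0 < x := by simpa [k13] using h
        by_contra hq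
        rcases (show q = md ∨ q < md by omega) with rfl | hq
        · omega
        · have := sorted_getD s1 hq (by omega)
          omega
    · refine Tr.bin (o + md) (by simp [Op.ev, G.g0]) (by omega) ?_
      refine Tr.skip ⟨rfl, fun j h1 h2 => ?_, lo, md, by simp [p1], by simp, by omega, by omega,
        Or.inr ⟨by simp [p5], fun q h1 h2 => ⟨(p6 q h1 h2).1, ?_⟩⟩⟩
      · simp (disch := omega) only [update_of_ne]
        exact hf j h1 h2
      · have h'' : x < l.getD md 0 := by simpa [k13] using h'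
        by_contra hq
        rcases (show q = md ∨ md < q by omega) with rfl | hq
        · omega
        · have := sorted_getD s1 hq h1
          omega
    · refine Tr.const (by omega) ?_
      refine Tr.bin (o + lo) (by simp [Op.ev, G.g0, p1]) (by omega) ?_
      refine Tr.skip ⟨rfl, fun j h1 h2 => ?_, lo, lo, by simp [p1], by simp, by omega, by omega,
        Or.inl ⟨by simp, mem_iff_getD.2 ⟨md, by omega, ?_⟩, le_rfl⟩⟩
      · simp (disch := omega) only [update_of_ne]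
        exact hf j h1 h2
      · have h1 : x ≤ l.getD md 0 := by simpa [k13] using h
        have h2 : l.getD md 0 ≤ x := by simpa [k13] using h'
        omega
  · rintro r' W' ⟨-, -, lo, hi, p1, p2, -, p4, -⟩
    omega
  · rintro m r' W' ⟨rfl, hf, lo, hi, p1, p2, -, -, p5⟩ hc
    refine ⟨rfl, fun j hj => hf j (by omega) (by omega), ?_⟩
    rcases p5 with ⟨p5, p6, -⟩ | ⟨p5, p6⟩
    · simp [p5, p6]
    · have : x ∉ l := fun k => by
        obtain ⟨q, k1, k2⟩ := mem_iff_getD.1 k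
        have := p6 q k1 k2
        omega
      simp [p5, this]
  · refine ⟨rfl, fun j h1 h2 => ?_, 0, l.length, by simp, by simp, le_rfl, by omega,
      Or.inr ⟨by simp, fun q h1 _ => ⟨Nat.zero_le _, h1⟩⟩⟩
    simp (disch := omega) only [update_of_ne]
  rintro r' W' ⟨rfl, hf, p⟩
  have G := hG.frame fun j hj => hf j (by omega)
  refine Tr.bin 2 (by simp [Op.ev, G.g2, hf 8 (by omega), h8]) (by omega) ?_
  refine Tr.const (by omega) (Tr.skip ⟨rfl, G.frame fun j hj => ?_, by simp, by simp, by simp [p]⟩)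
  simp (disch := omega) only [update_of_ne]

end Pool.Agent.Lib.MP_a349b4_lc.GZ
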