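import Pool.Agent.Lib.MP_a349b4_lc.GZ.MachA

/-! One step of the scan of the work list. -/

set_option autoImplicit false

namespace Pool.Agent.Lib.MP_a349b4_lc.GZ

open Function LG

variable {e : Env}

def dupBody : Cmd :=
  .seq (.read 26 25) <| .seq (.bin .add 25 25 1) <|
  .ite 26 13 .skip (.ite 13 26 .skip (.seq (.const 23 1) .skip))

theorem dup_spec (he : e.Ok) {r W : ℕ → ℕ} (hG : Glob e r) {a i y : ℕ} (h25 : r 25 = a)
    (h15 : r 15 = a + i) (h13 : r 13 = y) (hB : a + i ≤ 2 * e.B) (h1 : 1 ≤ e.B) :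
    Tr e.w e.D (.loop 25 15 dupBody) r W (fun r' W' => W' = W ∧
      (∀ j < 25, j ≠ 23 → r' j = r j) ∧ (0 < r' 23 ↔ 0 < r 23 ∨ ∃ q < i, W (a + q) = y))
      (i * (7 + 2) + 2) := by
  have b5 := he.b5
  refine (Tr.loop (fun m r' W' => W' = W ∧ (∀ j < 25, j ≠ 23 → r' j = r j) ∧ r' 25 = a + m ∧
    (0 < r' 23 ↔ 0 < r 23 ∨ ∃ q < m, W (a + q) = y)) i ?_ ?_ ?_).imp
    fun r' W' h => ⟨h.1, h.2.1, h.2.2.2⟩
  · rintro m r' W' hm ⟨rfl, hf, p1, p2⟩
    have G := hG.frame fun j hj => hf j (by omega) (by omega)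
    have k15 := (hf 15 (by omega) (by omega)).trans h15
    have k13 := (hf 13 (by omega) (by omega)).trans h13
    refine ⟨by omega, Tr.read (W' (a + m)) (by rw [p1]) ?_⟩
    refine Tr.bin (a + (m + 1)) (by simp [Op.ev, p1, G.g1, Nat.add_assoc]) (by omega) ?_
    have ne : W' (a + m) ≠ y → W' = W' ∧ (∀ j < 25, j ≠ 23 →
        update (update r' 26 (W' (a + m))) 25 (a + (m + 1)) j = r j) ∧
        update (update r' 26 (W' (a + m))) 25 (a + (m + 1)) 25 = a + (m + 1) ∧
        (0 < update (update r' 26 (W' (a + m))) 25 (a + (m + 1)) 23 ↔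
          0 < r 23 ∨ ∃ q < m + 1, W' (a + q) = y) := fun h => by
      refine ⟨rfl, fun j h1 h2 => ?_, by simp, ?_⟩
      · simp (disch := omega) only [update_of_ne]
        exact hf j h1 h2
      · rw [Nat.exists_lt_succ_right, or_iff_left h, ← p2]
        simp
    refine Tr.ite (fun h => Tr.skip (ne ?_)) fun h => Tr.ite (fun h' => Tr.skip (ne ?_))
      fun h' => Tr.const (by omega) (Tr.skip (t := 0) ⟨rfl, fun j h1 h2 => ?_, by simp, ?_⟩)
    · have : W' (a + m) < y := by simpa [k13] using h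
      omega
    · have : y < W' (a + m) := by simpa [k13] using h'
      omega
    · simp (disch := omega) only [update_of_ne]
      exact hf j h1 h2
    · have h1 : y ≤ W' (a + m) := by simpa [k13] using h
      have h2 : W' (a + m) ≤ y := by simpa [k13] using h'
      simpa using Or.inr ⟨m, by omega, by omega⟩
  · rintro r' W' ⟨-, hf, p1, -⟩
    rw [p1, hf _ (by omega) (by omega), h15]
    omega
  · exact ⟨rfl, fun _ _ _ => rfl, h25, by simp⟩

def cpBody : Cmd :=
  .seq (.load 27 25) <| .seq (.write 16 27) <| .seq (.bin .add 16 16 1) <|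
  .seq (.bin .add 25 25 1) .skip

theorem cp_spec (he : e.Ok) {r W : ℕ → ℕ} (hG : Glob e r) {o b : ℕ} {l : List ℕ} (h25 : r 25 = o)
    (h26 : r 26 = o + l.length) (h16 : r 16 = b) (hB : b + l.length ≤ 2 * e.B)
    (ho : o + l.length ≤ e.B) (hD : ∀ q < l.length, e.D.getD (o + q) 0 = l.getD q 0) :
    Tr e.w e.D (.loop 25 26 cpBody) r W (fun r' W' => (∀ j < 25, j ≠ 16 → r' j = r j) ∧
      r' 16 = b + l.length ∧ (∀ q < l.length, W' (b + q) = l.getD q 0) ∧
      ∀ a, a < b ∨ b + l.length ≤ a → W' a = W a) (l.length * (4 + 2) + 2) := by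
  have b5 := he.b5
  refine (Tr.loop (fun m r' W' => (∀ j < 27, j ≠ 16 → j ≠ 25 → r' j = r j) ∧ r' 25 = o + m ∧
    r' 16 = b + m ∧ (∀ q < m, W' (b + q) = l.getD q 0) ∧
      ∀ a, a < b ∨ b + m ≤ a → W' a = W a) l.length ?_ ?_ ?_).imp
    fun r' W' h => ⟨fun j h1 h2 => h.1 j (by omega) h2 (by omega), h.2.2⟩
  · rintro m r' W' hm ⟨hf, p1, p2, p3, p4⟩
    have G := hG.frame fun j hj => hf j (by omega) (by omega) (by omega)
    have k26 := (hf 26 (by omega) (by omega) (by omega)).trans h26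
    refine ⟨by omega, Tr.load (l.getD m 0) (by rw [p1, hD m hm]) ?_⟩
    refine Tr.write (b + m) (l.getD m 0) (by simp [p2]) (by simp) ?_
    refine Tr.bin (b + (m + 1)) (by simp [Op.ev, p2, G.g1, Nat.add_assoc]) (by omega) ?_
    refine Tr.bin (o + (m + 1)) (by simp [Op.ev, p1, G.g1, Nat.add_assoc]) (by omega) ?_
    refine Tr.skip (t := 0) ⟨fun j h1 h2 h3 => ?_, by simp, by simp, fun q hq => ?_, fun a ha => ?_⟩
    · simp (disch := omega) only [update_of_ne]
      exact hf j h1 h2 h3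
    · rcases Nat.lt_succ_iff_lt_or_eq.1 hq with hq | rfl
      · rw [update_of_ne (by omega), p3 q hq]
      · rw [update_self]
    · rw [update_of_ne (by omega), p4 a (by omega)]
  · rintro r' W' ⟨hf, p1, -⟩
    rw [p1, hf _ (by omega) (by omega) (by omega), h26]
    omega
  · exact ⟨fun _ _ _ _ => rfl, h25, h16, fun _ h => by omega, fun _ _ => rfl⟩

/-- The state of the scan at level `j`. -/
structure St (e : Env) (j : ℕ) (d : Bool) (idx lim i : ℕ) (L : List ℕ) (a : Bool)
    (r W : ℕ → ℕ) : Prop where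
  gl : Glob e r
  s8 : r 8 = 2 ^ j
  s11 : r 11 = d.toNat
  s12 : r 12 = idx
  s14 : r 14 = lim + 1
  s15 : r 15 = 2 ^ j * (e.X + 20) + 9 + i
  s16 : r 16 = 2 ^ j * (e.X + 20) + 9 + L.length
  s17 : r 17 = a.toNat
  mem : ∀ q < L.length, W (2 ^ j * (e.X + 20) + 9 + q) = L.getD q 0
  len : L.length ≤ e.X + 1
  lt : ∀ z ∈ L, z < e.G.N

def expand : Cmd :=
  .seq (.bin .add 21 21 11) <| .seq (.load 25 21) <| .seq (.bin .add 21 21 1) <|
  .seq (.load 26 21) <| .seq (.bin .add 27 16 26) <| .seq (.bin .add 28 24 25) <|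
  .seq (.bin .add 28 28 5) <| .ite 27 28 (.loop 25 26 cpBody) (.seq (.const 17 1) .skip)

theorem expand_spec (he : e.Ok) {j d idx lim i L a} {r W : ℕ → ℕ} (hj : j ≤ e.J)
    (h : St e j d idx lim i L a r W) {y : ℕ} (hy : y < e.G.N) (h21 : r 21 = y * 4)
    (h24 : r 24 = 2 ^ j * (e.X + 20) + 9) :
    Tr e.w e.D expand r W (fun r' W' => r' 9 = r 9 ∧
      (∀ x, 2 ^ j * (e.X + 20) + (e.X + 20) ≤ x → W' x = W x) ∧
      if L.length + (e.G.adj d y).length ≤ e.X + 1 then
        St e j d idx lim i (L ++ e.G.adj d y) a r' W' else St e j d idx lim i L true r' W')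
      ((e.X + 1) * (4 + 2) + 2 + 2 + 7) := by
  have b2 := he.b2
  have b5 := he.b5
  obtain ⟨f1, f2, -, -⟩ := he.frame hj
  have G := h.gl
  have d1 := Bool.toNat_le d
  obtain ⟨c1, c2⟩ := he.c2 (y * 4 + d.toNat) (by omega)
  have o1 := he.off_le (a := y * 4 + d.toNat + 1) (by omega)
  have hlt := fun z => e.G.lt d y z
  rw [he.adj d hy] at c1 c2
  obtain ⟨l, hl⟩ : ∃ l, e.G.adj d y = l := ⟨_, rfl⟩
  obtain ⟨o, ho⟩ : ∃ o, e.off (y * 4 + d.toNat) = o := ⟨_, rfl⟩
  obtain ⟨gl, s8, s11, s12, s14, s15, s16, s17, mem, len, lt⟩ := h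
  rw [hl] at c1 c2 hlt ⊢
  rw [ho] at c1 c2
  refine Tr.bin (y * 4 + d.toNat) (by simp [Op.ev, h21, s11]) (by omega) ?_
  refine Tr.load o (by simpa [ho] using he.c1 (y * 4 + d.toNat) (by omega)) ?_
  refine Tr.bin (y * 4 + d.toNat + 1) (by simp [Op.ev, G.g1]) (by omega) ?_
  refine Tr.load (o + l.length) (by simpa [c1] using he.c1 (y * 4 + d.toNat + 1) (by omega)) ?_
  refine Tr.bin (2 ^ j * (e.X + 20) + 9 + L.length + (o + l.length)) (by simp [Op.ev, s16])
    (by omega) ?_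
  refine Tr.bin (2 ^ j * (e.X + 20) + 9 + o) (by simp [Op.ev, h24]) (by omega) ?_
  refine Tr.bin (2 ^ j * (e.X + 20) + 9 + o + (e.X + 2)) (by simp [Op.ev, G.g5]) (by omega) ?_
  refine Tr.ite (fun hc => ?_) fun hc => ?_
  · have hc' : L.length + l.length ≤ e.X + 1 := by
      simp at hc
      omega
    refine ((cp_spec he (G.frame fun j hj => ?_) (o := o) (l := l) (by simp) (by simp)
      (b := 2 ^ j * (e.X + 20) + 9 + L.length) (by simp [s16]) (by omega) (by omega) c2).imp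
      ?_).le (by gcongr; omega)
    · simp (disch := omega) only [update_of_ne]
    rintro r' W' ⟨p1, p2, p3, p4⟩
    have hf : ∀ j < 21, j ≠ 16 → r' j = r j := fun j h1 h2 => by
      rw [p1 j (by omega) h2]
      simp (disch := omega) only [update_of_ne]
    rw [if_pos hc']
    refine ⟨hf 9 (by omega) (by omega), fun x hx => p4 x (by omega),
      G.frame fun j hj => hf j (by omega) (by omega), ?_, ?_, ?_, ?_, ?_, ?_, ?_, fun q hq => ?_,
      by simpa using hc', fun z hz => (List.mem_append.1 hz).elim (lt z) (hlt z)⟩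
    all_goals try rwa [hf _ (by omega) (by omega)]
    · rw [p2, List.length_append, Nat.add_assoc]
    · rw [List.length_append] at hq
      by_cases k : q < L.length
      · rw [p4 _ (by omega), mem q k, List.getD_append _ _ _ _ k]
      · rw [List.getD_append_right _ _ _ _ (by omega), ← p3 _ (by omega)]
        congr 1
        omega
  · have hc' : ¬ L.length + l.length ≤ e.X + 1 := by
      simp at hc
      omega
    refine (Tr.const (by omega) (Tr.skip (t := 0) ?_)).le (by omega)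
    rw [if_neg hc']
    refine ⟨by simp, fun _ _ => rfl, G.frame fun j hj => ?_, by simpa using s8,
      by simpa using s11, by simpa using s12, by simpa using s14, by simpa using s15,
      by simpa using s16, by simp, mem, len, lt⟩
    simp (disch := omega) only [update_of_ne]

def proc : Cmd :=
  .seq (.bin .mul 21 13 4) <| .seq (.bin .add 22 21 2) <| .seq (.load 22 22) <|
  .seq (.bin .add 22 22 11) <| .seq (.load 22 22) <| .seq (.bin .add 23 18 0) <|
  .seq (.const 24 9) <| .seq (.bin .mul 25 8 6) <| .seq (.bin .add 24 24 25) <|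
  .seq (.bin .add 25 24 0) <| .seq (.loop 25 15 dupBody) <| .seq (.bin .add 15 15 1) <|
  .seq (.const 9 1) <| .seq (.bin .add 17 17 10) <| .seq (.bin .add 17 17 1) <|
  .seq (.bin .div 17 17 2) <| .ite 22 14 (.ite 0 23 .skip expand) .skip

theorem proc_spec (he : e.Ok) {j d idx lim i L a} {r W : ℕ → ℕ} (hj : j ≤ e.J)
    (h : St e j d idx lim i L a r W) (hi : i < L.length) (f1 f2 : ℕ → Bool)
    (h13 : r 13 = L.getD i 0) (h18 : r 18 = (f1 (L.getD i 0)).toNat)
    (h10 : r 10 = (f2 (L.getD i 0)).toNat) :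
    Tr e.w e.D proc r W (fun r' W' => r' 9 = 1 ∧
      (∀ x, 2 ^ j * (e.X + 20) + (e.X + 20) ≤ x → W' x = W x) ∧ ∃ L' a',
        St e j d idx lim (i + 1) L' a' r' W' ∧ ∀ fuel,
          loop f1 f2 (e.G.adj d) (e.G.lay d) lim e.X (fuel + 1) i L a =
            loop f1 f2 (e.G.adj d) (e.G.lay d) lim e.X fuel (i + 1) L' a') (15 * e.X + 60) := by
  have b2 := he.b2
  have b5 := he.b5
  obtain ⟨q1, q2, -, -⟩ := he.frame hj
  have d1 := Bool.toNat_le d
  obtain ⟨G, s8, s11, s12, s14, s15, s16, s17, mem, len, lt⟩ := h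
  have hl : ∀ fuel, loop f1 f2 (e.G.adj d) (e.G.lay d) lim e.X (fuel + 1) i L a = _ :=
    fun fuel => by rw [loop, if_pos hi]
  have hy : L.getD i 0 < e.G.N := lt _ (mem_iff_getD.2 ⟨i, hi, rfl⟩)
  obtain ⟨y, hy'⟩ : ∃ y, L.getD i 0 = y := ⟨_, rfl⟩
  rw [hy'] at hl hy h13 h18 h10
  have o1 := he.off_le (a := y * 4 + 2) (by omega)
  have t1 := Bool.toNat_le (f1 y)
  have t2 := Bool.toNat_le (f2 y)
  have t3 := Bool.toNat_le a
  refine Tr.le (t' := (e.X + 1) * (4 + 2) + 2 + 2 + 7 + 2 + 2 + 5 + (i * (7 + 2) + 2) + 10) ?_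
    (by omega)
  refine Tr.bin (y * 4) (by simp [Op.ev, h13, G.g4]) (by omega) ?_
  refine Tr.bin (y * 4 + 2) (by simp [Op.ev, G.g2]) (by omega) ?_
  refine Tr.load (e.off (y * 4 + 2)) (by simpa using he.c1 (y * 4 + 2) (by omega)) ?_
  refine Tr.bin (e.off (y * 4 + 2) + d.toNat) (by simp [Op.ev, s11]) (by omega) ?_
  refine Tr.load (e.G.lay d y) (by simpa using he.lay d hy) ?_
  refine Tr.bin (f1 y).toNat (by simp [Op.ev, h18, G.g0]) (by omega) ?_
  refine Tr.const (by omega) ?_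
  refine Tr.bin (2 ^ j * (e.X + 20)) (by simp [Op.ev, s8, G.g6]) (by omega) ?_
  refine Tr.bin (2 ^ j * (e.X + 20) + 9) (by simp [Op.ev, Nat.add_comm]) (by omega) ?_
  refine Tr.bin (2 ^ j * (e.X + 20) + 9) (by simp [Op.ev, G.g0]) (by omega) ?_
  refine Tr.seq (dup_spec he (G.frame fun j hj => ?_) (a := 2 ^ j * (e.X + 20) + 9) (i := i)
    (y := y) (by simp) (by simp [s15]) (by simp [h13]) (by omega) (by omega)) ?_
  · simp (disch := omega) only [update_of_ne]
  rintro r' W' ⟨rfl, p1, p2⟩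
  have hf : ∀ j < 21, r' j = r j := fun j h1 => by
    rw [p1 j (by omega) (by omega)]
    simp (disch := omega) only [update_of_ne]
  have k21 : r' 21 = y * 4 := by simpa using p1 21 (by omega) (by omega)
  have k22 : r' 22 = e.G.lay d y := by simpa using p1 22 (by omega) (by omega)
  have k24 : r' 24 = 2 ^ j * (e.X + 20) + 9 := by simpa using p1 24 (by omega) (by omega)
  have k23 : 0 < r' 23 ↔ ¬ (y ∉ L.take i ∧ f1 y = false) := by
    have : y ∈ L.take i ↔ ∃ q < i, W' (2 ^ j * (e.X + 20) + 9 + q) = y := by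
      rw [mem_iff_getD, List.length_take, min_eq_left hi.le]
      refine exists_congr fun q => and_congr_right fun hq => ?_
      rw [mem q (by omega), List.getD_eq_getElem?_getD, List.getD_eq_getElem?_getD,
        List.getElem?_take_of_lt hq]
    rw [p2, ← this]
    cases f1 y <;> simp
  have G' := G.frame fun j hj => hf j (by omega)
  refine Tr.bin (2 ^ j * (e.X + 20) + 9 + (i + 1))
    (by simp [Op.ev, hf 15 (by omega), s15, G'.g1, Nat.add_assoc]) (by omega) ?_
  refine Tr.const (by omega) ?_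
  refine Tr.bin (a.toNat + (f2 y).toNat)
    (by simp [Op.ev, hf 17 (by omega), hf 10 (by omega), s17, h10]) (by omega) ?_
  refine Tr.bin (a.toNat + (f2 y).toNat + 1) (by simp [Op.ev, G'.g1]) (by omega) ?_
  refine Tr.bin (a || f2 y).toNat
    (by cases a <;> cases f2 y <;> simp [Op.ev, G'.g2]) ((Bool.toNat_le _).trans_lt (by omega)) ?_
  generalize hr : update (update (update (update (update r' 15 _) 9 1) 17 _) 17 _) 17 _ = r2
  have S : St e j d idx lim (i + 1) L (a || f2 y) r2 W' := by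
    subst hr
    refine ⟨G'.frame fun j hj => ?_, ?_, ?_, ?_, ?_, by simp, ?_, by simp, mem, len, lt⟩
    · simp (disch := omega) only [update_of_ne]
    all_goals
      simp (disch := omega) only [update_of_ne]
      rwa [hf _ (by omega)]
  have m9 : r2 9 = 1 := by simp [← hr]
  have m22 : r2 22 = e.G.lay d y := by simp [← hr, k22]
  have m23 : r2 23 = r' 23 := by simp [← hr]
  refine Tr.ite (fun c1 => Tr.ite (fun c2 => Tr.skip ?_) fun c2 => ?_) fun c1 => Tr.skip ?_
  · rw [S.gl.g0, m23, k23] at c2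
    exact ⟨m9, fun _ _ => rfl, L, _, S, fun fuel => by rw [hl, if_neg fun k => c2 k.2]⟩
  · rw [S.gl.g0, m23, k23, not_not] at c2
    rw [m22, S.s14] at c1
    refine (expand_spec he hj S hy (by simp [← hr, k21]) (by simp [← hr, k24])).imp ?_
    rintro r3 W3 ⟨a1, a2, a3⟩
    refine ⟨a1.trans m9, a2, ?_⟩
    split_ifs at a3 with c3
    · exact ⟨_, _, a3, fun fuel => by rw [hl, if_pos ⟨by omega, c2⟩, if_pos c3]⟩
    · exact ⟨_, _, a3, fun fuel => by rw [hl, if_pos ⟨by omega, c2⟩, if_neg c3]⟩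
  · rw [m22, S.s14] at c1
    exact ⟨m9, fun _ _ => rfl, L, _, S, fun fuel => by rw [hl, if_neg fun k => c1 (Nat.lt_succ_of_le k.1)]⟩

end Pool.Agent.Lib.MP_a349b4_lc.GZ
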