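import Pool.Agent.Lib.MP_a349b4_lc.GZ.MachB

/-! The recursive query as one loop with a stack in the working memory. -/

set_option autoImplicit false

namespace Pool.Agent.Lib.MP_a349b4_lc.GZ

open Function LG

variable {e : Env}

def callc : Cmd :=
  .seq (.bin .mul 20 8 6) <| sv 9 11 <| .seq (.bin .add 11 11 1) <| .seq (.bin .add 11 11 19) <|
  .seq (.bin .mod 11 11 2) <| .seq (.bin .mul 12 12 2) <| .seq (.bin .add 12 12 19) <|
  .seq (.bin .div 8 8 2) <| .seq (.const 9 0) .skip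

def after : Cmd := .ite 19 1 (.seq (.bin .add 18 10 0) <| .seq (.const 19 1) callc) proc

def retc : Cmd := .seq (.bin .mul 20 8 6) <| rs 9 11 after

def scan : Cmd := .ite 15 16 (.seq (.read 13 15) <| .seq (.const 19 0) callc) <|
  .seq (.bin .add 10 17 0) <| .seq (.bin .mul 8 8 2) <| .seq (.const 9 2) .skip

def start : Cmd :=
  .seq (.bin .mul 21 13 4) <| .seq (.bin .add 22 21 2) <| .seq (.load 22 22) <|
  .seq (.bin .add 22 22 11) <| .seq (.load 22 22) <| .seq (.bin .div 14 8 2) <|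
  .seq (.bin .add 14 14 22) <| .seq (.const 15 9) <| .seq (.bin .mul 16 8 6) <|
  .seq (.bin .add 15 15 16) <| .seq (.write 15 13) <| .seq (.bin .add 16 15 1) <|
  .seq (.const 17 0) <| .seq (.const 9 1) .skip

def body : Cmd := .ite 9 1 (.ite 1 8 start leaf) (.ite 9 2 scan retc)

def mainLoop : Cmd := .loop 8 7 body

/-- The specification of a call at level `j`, with the rest of the run as a continuation. -/
def Proc (e : Env) (j T : ℕ) : Prop :=
  ∀ (r W : ℕ → ℕ) (d : Bool) (idx x : ℕ) (Q : (ℕ → ℕ) → (ℕ → ℕ) → Prop) (t : ℕ), Glob e r →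
    r 8 = 2 ^ j → r 9 = 0 → r 11 = d.toNat → r 12 = idx → r 13 = x → x < e.G.N →
    (idx + 1) * 2 ^ j ≤ e.G.N →
    (∀ r' W', Glob e r' → r' 8 = 2 ^ (j + 1) → r' 9 = 2 →
      r' 10 = (qry e.G e.Lf e.X j d idx x).toNat →
      (∀ a, 2 ^ j * (e.X + 20) + (e.X + 20) ≤ a → W' a = W a) → Tr e.w e.D mainLoop r' W' Q t) →
    Tr e.w e.D mainLoop r W Q (t + T)

theorem proc_zero (he : e.Ok) : Proc e 0 (e.Lg * 11 + 16) := by
  intro r W d idx x Q t G h8 h9 h11 h12 h13 hx hi h
  have := Nat.two_pow_pos e.J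
  refine (tr_step (by rw [h8, G.g7]; omega) (Tr.ite (fun _ => Tr.ite
    (fun k => absurd k (by rw [h8, G.g1]; omega)) fun _ =>
      (leaf_spec he G h8 h12 h13 (by omega)).imp ?_)
    fun k => absurd (by rw [h9, G.g1]; omega) k)).le (t' := t + _ + 2) (by omega)
  rintro r' W' ⟨rfl, a1, a2, a3, a4⟩
  exact h _ _ a1 a2 a3 a4 fun _ _ => rfl

theorem call_spec (he : e.Ok) {j T : ℕ} (hj : j + 1 ≤ e.J) (ih : Proc e j T) {r W : ℕ → ℕ}
    (G : Glob e r) {d d' : Bool} {idx y ph : ℕ} (h8 : r 8 = 2 ^ (j + 1)) (h11 : r 11 = d.toNat)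
    (h12 : r 12 = idx) (h13 : r 13 = y) (h19 : r 19 = ph) (hp : ph ≤ 1)
    (hd : (d.toNat + 1 + ph) % 2 = d'.toNat) (hy : y < e.G.N)
    (hi : (idx + 1) * 2 ^ (j + 1) ≤ e.G.N) {Q : (ℕ → ℕ) → (ℕ → ℕ) → Prop} {t t1 : ℕ}
    (h : ∀ r' W', Glob e r' → r' 8 = r 8 → (∀ q, 11 ≤ q → q < 20 → r' q = r q) →
      r' 10 = (qry e.G e.Lf e.X j d' (2 * idx + ph) y).toNat →
      (∀ a, 2 ^ (j + 1) * (e.X + 20) + 9 ≤ a → W' a = W a) →
      Tr e.w e.D after r' W' (fun r2 W2 => Tr e.w e.D mainLoop r2 W2 Q t) t1) :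
    Tr e.w e.D callc r W (fun r' W' => Tr e.w e.D mainLoop r' W' Q (t + t1 + 25 + T)) 26 := by
  have b2 := he.b2
  have b5 := he.b5
  obtain ⟨q1, q2, q3, q4⟩ := he.frame hj
  have q5 := (he.frame (j := j) (by omega)).2.1
  have d1 := Bool.toNat_le d
  have d2 := Bool.toNat_le d'
  have e1 : 2 ^ (j + 1) * (e.X + 20) = 2 ^ j * (e.X + 20) * 2 := by ring
  have e2 : (2 * idx + ph + 1) * 2 ^ j ≤ (idx + 1) * 2 ^ (j + 1) := by
    rw [pow_succ', ← Nat.mul_assoc]
    exact Nat.mul_le_mul_right _ (by omega)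
  have e3 : 2 * idx + ph + 1 ≤ (2 * idx + ph + 1) * 2 ^ j :=
    Nat.le_mul_of_pos_right _ (Nat.two_pow_pos j)
  obtain ⟨b, hb⟩ : ∃ b, 2 ^ (j + 1) * (e.X + 20) = b := ⟨_, rfl⟩
  rw [hb] at q1 q2 q3 e1 h
  refine Tr.bin b (by simp [Op.ev, h8, G.g6, hb]) (by omega) ?_
  refine tr_sv (t := 7) 9 11 _ _ (by simp [G.g1]) (by simp; omega) le_rfl
    fun r1 W1 a1 a2 a3 => ?_
  rw [update_self] at a2 a3
  have hf : ∀ j < 20, r1 j = r j := fun j hj => by rw [a1 j (by omega), update_of_ne (by omega)]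
  have G1 := G.frame fun j hj => hf j (by omega)
  refine Tr.bin (d.toNat + 1) (by simp [Op.ev, hf 11 (by omega), h11, G1.g1]) (by omega) ?_
  refine Tr.bin (d.toNat + 1 + ph) (by simp [Op.ev, hf 19 (by omega), h19]) (by omega) ?_
  refine Tr.bin d'.toNat (by simp [Op.ev, G1.g2, hd]) (by omega) ?_
  refine Tr.bin (2 * idx) (by simp [Op.ev, hf 12 (by omega), h12, G1.g2, Nat.mul_comm])
    (by omega) ?_
  refine Tr.bin (2 * idx + ph) (by simp [Op.ev, hf 19 (by omega), h19]) (by omega) ?_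
  refine Tr.bin (2 ^ j) (by simp [Op.ev, hf 8 (by omega), h8, G1.g2, pow_succ]) (by omega) ?_
  refine Tr.const (by omega) (Tr.skip (t := 0) ?_)
  refine ih _ _ d' (2 * idx + ph) y _ _ (G1.frame fun j hj => ?_) (by simp) (by simp) (by simp)
    (by simp) (by simp [hf 13 (by omega), h13]) hy (by omega) fun r2 W2 G2 k8 k9 k10 kW => ?_
  · simp (disch := omega) only [update_of_ne]
  refine (tr_step (by rw [k8, G2.g7]; omega) (Tr.ite
    (fun k => absurd k (by rw [k9, G2.g1]; omega)) fun _ => Tr.ite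
      (fun k => absurd k (by rw [k9, G2.g2]; omega)) fun _ => ?_)).le
    (t' := t + (t1 + 2 * 9 + 1 + 2 + 2) + 2) (by omega)
  refine Tr.bin b (by simp [Op.ev, k8, G2.g6, hb]) (by omega) ?_
  refine tr_rs 9 11 _ (by simp [G2.g1]) (by simp; omega) le_rfl (by omega) fun r3 c1 c2 => ?_
  rw [update_self] at c2
  have hg : ∀ j < 11, r3 j = r2 j := fun j hj => by rw [c1 j hj, update_of_ne (by omega)]
  refine h r3 W2 (G2.frame fun j hj => hg j (by omega)) (by rw [hg 8 (by omega), k8, h8])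
    (fun q h1 h2 => ?_) (by rw [hg 10 (by omega), k10])
    fun a ha => by rw [kW a (by omega), a3 a (by omega)]
  obtain ⟨q, rfl⟩ := Nat.exists_eq_add_of_le h1
  rw [c2 q (by omega), kW _ (by omega), a2 q (by omega), update_of_ne (by omega)]

theorem St.frame {j d idx lim i L a} {r W r' W' : ℕ → ℕ} (h : St e j d idx lim i L a r W)
    (G : Glob e r') (h8 : r' 8 = r 8) (hf : ∀ q, 11 ≤ q → q < 18 → q ≠ 13 → r' q = r q)
    (hW : ∀ a, 2 ^ j * (e.X + 20) + 9 ≤ a → W' a = W a) : St e j d idx lim i L a r' W' :=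
  ⟨G, h8.trans h.s8, (hf 11 (by omega) (by omega) (by omega)).trans h.s11,
    (hf 12 (by omega) (by omega) (by omega)).trans h.s12,
    (hf 14 (by omega) (by omega) (by omega)).trans h.s14,
    (hf 15 (by omega) (by omega) (by omega)).trans h.s15,
    (hf 16 (by omega) (by omega) (by omega)).trans h.s16,
    (hf 17 (by omega) (by omega) (by omega)).trans h.s17,
    fun q hq => (hW _ (by omega)).trans (h.mem q hq), h.len, h.lt⟩

theorem scan_spec (he : e.Ok) {j T : ℕ} (hj : j + 1 ≤ e.J) (ih : Proc e j T) {d : Bool}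
    {idx lim : ℕ} (hi : (idx + 1) * 2 ^ (j + 1) ≤ e.G.N) {Q : (ℕ → ℕ) → (ℕ → ℕ) → Prop} {t : ℕ} :
    ∀ (fuel i : ℕ) (L : List ℕ) (a : Bool) (r W : ℕ → ℕ), St e (j + 1) d idx lim i L a r W →
      r 9 = 1 → e.X + 1 ≤ i + fuel →
      (∀ r' W', Glob e r' → r' 8 = 2 ^ (j + 1 + 1) → r' 9 = 2 →
        r' 10 = (loop (qry e.G e.Lf e.X j (!d) (2 * idx)) (qry e.G e.Lf e.X j d (2 * idx + 1))
          (e.G.adj d) (e.G.lay d) lim e.X fuel i L a).toNat →
        (∀ a, 2 ^ (j + 1) * (e.X + 20) + (e.X + 20) ≤ a → W' a = W a) →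
        Tr e.w e.D mainLoop r' W' Q t) →
      Tr e.w e.D mainLoop r W Q (t + (fuel * (2 * T + 15 * e.X + 200) + 20)) := by
  have b5 := he.b5
  obtain ⟨q1, q2, q3, q4⟩ := he.frame hj
  have enter : ∀ {i L a r W t' t1}, St e (j + 1) d idx lim i L a r W → r 9 = 1 →
      Tr e.w e.D scan r W (fun r' W' => Tr e.w e.D mainLoop r' W' Q t') t1 →
      Tr e.w e.D mainLoop r W Q (t' + (t1 + 2 + 2) + 2) := fun S h9 h =>
    tr_step (by rw [S.s8, S.gl.g7]; omega) (Tr.ite
      (fun k => absurd k (by rw [h9, S.gl.g1]; omega)) fun _ => Tr.ite (fun _ => h)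
        fun k => absurd (by rw [h9, S.gl.g2]; omega) k)
  have fin : ∀ {i L a r W}, St e (j + 1) d idx lim i L a r W → r 9 = 1 → ¬ i < L.length →
      (∀ r' W', Glob e r' → r' 8 = 2 ^ (j + 1 + 1) → r' 9 = 2 → r' 10 = a.toNat →
        (∀ a, 2 ^ (j + 1) * (e.X + 20) + (e.X + 20) ≤ a → W' a = W a) →
        Tr e.w e.D mainLoop r' W' Q t) → Tr e.w e.D mainLoop r W Q (t + 11) := by
    intro i L a r W S h9 hc h
    have t1 := Bool.toNat_le a
    refine enter (t1 := 3 + 2) S h9 (Tr.ite (fun k => absurd k (by rw [S.s15, S.s16]; omega))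
      fun _ => ?_)
    refine Tr.bin a.toNat (by simp [Op.ev, S.s17, S.gl.g0]) (by omega) ?_
    refine Tr.bin (2 ^ (j + 1) * 2) (by simp [Op.ev, S.s8, S.gl.g2]) (by omega) ?_
    refine Tr.const (by omega) (Tr.skip (t := 0) (h _ _ (S.gl.frame fun j hj => ?_)
      (by simp [pow_succ]) (by simp) (by simp) fun _ _ => rfl))
    simp (disch := omega) only [update_of_ne]
  intro fuel
  induction fuel with
  | zero =>
    intro i L a r W S h9 hf h
    have := S.len
    exact (fin S h9 (by omega) h).le (by omega)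
  | succ fuel ih2 =>
    intro i L a r W S h9 hf h
    by_cases hc : i < L.length
    swap
    · refine (fin S h9 hc ?_).le (by omega)
      rwa [loop, if_neg hc] at h
    have hy : L.getD i 0 < e.G.N := S.lt _ (mem_iff_getD.2 ⟨i, hc, rfl⟩)
    refine (enter (t' := t + (fuel * (2 * T + 15 * e.X + 200) + 20) + (15 * e.X + 60 + 2) + 25 + T
      + (26 + 1 + 1 + 2) + 25 + T) (t1 := 26 + 1 + 1 + 2) S h9 (Tr.ite (fun _ => ?_)
        fun k => absurd (by rw [S.s15, S.s16]; omega) k)).le (by rw [Nat.add_mul fuel 1]; omega)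
    refine Tr.read (L.getD i 0) (by rw [S.s15, S.mem i hc]) ?_
    refine Tr.const (by omega) ?_
    refine call_spec he hj ih (d := d) (d' := !d) (ph := 0) (S.gl.frame fun j hj => ?_)
      (by simp [S.s8]) (by simp [S.s11]) (by simp [S.s12]) (by simp) (by simp) (by omega)
      (by cases d <;> rfl) hy hi fun r1 W1 G1 a8 a1 a10 aW => ?_
    · simp (disch := omega) only [update_of_ne]
    have S1 : St e (j + 1) d idx lim i L a r1 W1 := S.frame G1 (by simpa using a8)
      (fun q h1 h2 h3 => by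
        rw [a1 q h1 (by omega), update_of_ne (by omega), update_of_ne h3]) aW
    have a13 : r1 13 = L.getD i 0 := by simpa using a1 13 (by omega) (by omega)
    have a19 : r1 19 = 0 := by simpa using a1 19 (by omega) (by omega)
    have t1 := Bool.toNat_le (qry e.G e.Lf e.X j (!d) (2 * idx + 0) (L.getD i 0))
    refine Tr.ite (fun _ => ?_) fun k => absurd (by rw [a19, G1.g1]; omega) k
    refine Tr.bin (r1 10) (by simp [Op.ev, G1.g0]) (by omega) ?_
    refine Tr.const (by omega) ?_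
    refine call_spec he hj ih (d := d) (d' := d) (ph := 1) (G1.frame fun j hj => ?_)
      (by simp [S1.s8]) (by simp [S1.s11]) (by simp [S1.s12]) (by simpa using a13) (by simp)
      (by omega) (by cases d <;> rfl) hy hi fun r2 W2 G2 c8 c1 c10 cW => ?_
    · simp (disch := omega) only [update_of_ne]
    have S2 : St e (j + 1) d idx lim i L a r2 W2 := S1.frame G2 (by simpa using c8)
      (fun q h1 h2 h3 => by
        rw [c1 q h1 (by omega), update_of_ne (by omega), update_of_ne (by omega)]) cW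
    have c13 : r2 13 = L.getD i 0 := by
      rw [c1 13 (by omega) (by omega), update_of_ne (by omega), update_of_ne (by omega), a13]
    have c18 : r2 18 = (qry e.G e.Lf e.X j (!d) (2 * idx) (L.getD i 0)).toNat := by
      rw [c1 18 (by omega) (by omega), update_of_ne (by omega), update_self, a10, Nat.add_zero]
    have c19 : r2 19 = 1 := by simpa using c1 19 (by omega) (by omega)
    refine Tr.ite (fun k => absurd k (by rw [c19, G2.g1]; omega)) fun _ => ?_
    refine (proc_spec he hj S2 hc _ _ c13 c18 c10).imp ?_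
    rintro r3 W3 ⟨p1, p2, L', a', p3, p4⟩
    refine ih2 _ _ _ _ _ p3 p1 (by omega) fun r4 W4 G4 k8 k9 k10 kW => h _ _ G4 k8 k9 ?_ ?_
    · rw [k10, p4]
    · intro x hx
      rw [kW x hx, p2 x hx, cW x (by omega), aW x (by omega)]

theorem proc_succ (he : e.Ok) {j T : ℕ} (hj : j + 1 ≤ e.J) (ih : Proc e j T) :
    Proc e (j + 1) ((e.X + 1) * (2 * T + 15 * e.X + 200) + 40) := by
  intro r W d idx x Q t G h8 h9 h11 h12 h13 hx hi h
  have b2 := he.b2
  have b4 := he.b4 d x hx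
  have b5 := he.b5
  obtain ⟨q1, q2, q3, q4⟩ := he.frame hj
  have o1 := he.off_le (a := x * 4 + 2) (by omega)
  have d1 := Bool.toNat_le d
  have p1 := Nat.two_pow_pos j
  have p2 : 2 ^ (j + 1) = 2 ^ j * 2 := pow_succ _ _
  refine (tr_step (by rw [h8, G.g7]; omega) (Tr.ite (fun _ => Tr.ite (fun _ => ?_)
    fun k => absurd (by rw [h8, G.g1]; omega) k)
    fun k => absurd (by rw [h9, G.g1]; omega) k)).le
    (t' := t + ((e.X + 1) * (2 * T + 15 * e.X + 200) + 20) + (14 + 2 + 2) + 2) (by omega)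
  refine Tr.bin (x * 4) (by simp [Op.ev, h13, G.g4]) (by omega) ?_
  refine Tr.bin (x * 4 + 2) (by simp [Op.ev, G.g2]) (by omega) ?_
  refine Tr.load (e.off (x * 4 + 2)) (by simpa using he.c1 (x * 4 + 2) (by omega)) ?_
  refine Tr.bin (e.off (x * 4 + 2) + d.toNat) (by simp [Op.ev, h11]) (by omega) ?_
  refine Tr.load (e.G.lay d x) (by simpa using he.lay d hx) ?_
  refine Tr.bin (2 ^ j) (by simp [Op.ev, h8, G.g2, pow_succ]) (by omega) ?_
  refine Tr.bin (2 ^ j + e.G.lay d x) (by simp [Op.ev]) (by omega) ?_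
  refine Tr.const (by omega) ?_
  refine Tr.bin (2 ^ (j + 1) * (e.X + 20)) (by simp [Op.ev, h8, G.g6]) (by omega) ?_
  refine Tr.bin (2 ^ (j + 1) * (e.X + 20) + 9) (by simp [Op.ev, Nat.add_comm]) (by omega) ?_
  refine Tr.write (2 ^ (j + 1) * (e.X + 20) + 9) x (by simp) (by simp [h13]) ?_
  refine Tr.bin (2 ^ (j + 1) * (e.X + 20) + 9 + 1) (by simp [Op.ev, G.g1]) (by omega) ?_
  refine Tr.const (by omega) ?_
  refine Tr.const (by omega) (Tr.skip (t := 0) ?_)
  refine scan_spec he hj ih hi (d := d) (lim := e.G.lay d x + (2 ^ j - 1)) _ 0 [x] false _ _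
    ⟨G.frame fun j hj => ?_, by simp [h8], by simp [h11], by simp [h12], by simp; omega, by simp,
      by simp, by simp, fun q hq => ?_, by simp, by simpa using hx⟩ (by simp) (by omega)
    fun r' W' G' k8 k9 k10 kW => h _ _ G' k8 k9 (by rw [k10, qry]) fun a ha => ?_
  · simp (disch := omega) only [update_of_ne]
  · obtain rfl : q = 0 := by simpa using hq
    simp
  · rw [kW a ha, update_of_ne (by omega)]

theorem proc_all (he : e.Ok) : ∀ j ≤ e.J, Proc e j ((100 * (e.X + 2)) ^ (j + 1) * (e.Lg + 1)) := by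
  have mono : ∀ {j T T'}, Proc e j T → T ≤ T' → Proc e j T' := fun h k r W d idx x Q t G h8 h9
    h11 h12 h13 hx hi h' => (h r W d idx x Q t G h8 h9 h11 h12 h13 hx hi h').le (by omega)
  intro j
  induction j with
  | zero =>
    refine fun _ => mono (proc_zero he) ?_
    have : 100 * (e.Lg + 1) ≤ 100 * (e.X + 2) * (e.Lg + 1) := Nat.mul_le_mul_right _ (by omega)
    rw [Nat.zero_add, pow_one]
    omega
  | succ j ih =>
    refine fun hj => mono (proc_succ he hj (ih (by omega))) ?_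
    obtain ⟨U, hU⟩ : ∃ U, U = (100 * (e.X + 2)) ^ (j + 1) * (e.Lg + 1) := ⟨_, rfl⟩
    have h1 : 100 * (e.X + 2) ≤ U := hU ▸ (Nat.le_self_pow (by omega) _).trans
      (Nat.le_mul_of_pos_right _ (by omega))
    have h2 : (100 * (e.X + 2)) ^ (j + 1 + 1) * (e.Lg + 1) = (e.X + 2) * (100 * U) := by
      rw [hU]; ring
    have h3 : (e.X + 1) * (2 * U + 15 * e.X + 200) ≤ (e.X + 1) * (100 * U) :=
      Nat.mul_le_mul_left _ (by omega)
    rw [← hU, h2, Nat.succ_mul (e.X + 1)]
    omega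

def whole : Cmd :=
  .seq (.bin .add 13 0 2) <| .seq (.bin .add 12 1 2) <| .seq (.const 0 0) <| .seq (.const 1 1) <|
  .seq (.const 2 2) <| .seq (.const 3 3) <| .seq (.const 4 4) <| .seq (.load 20 2) <|
  .seq (.bin .add 20 20 2) <| .seq (.load 5 20) <| .seq (.bin .add 20 20 1) <|
  .seq (.load 8 20) <| .seq (.bin .add 7 8 1) <| .seq (.const 6 20) <| .seq (.bin .add 6 6 5) <|
  .seq (.bin .add 5 5 2) <| .seq (.const 11 1) <| .seq (.const 9 0) mainLoop

theorem whole_spec (he : e.Ok) {u v : ℕ} (hu : u < e.G.N) (hv : (v + 1) * 2 ^ e.J ≤ e.G.N)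
    (W : ℕ → ℕ) : Tr e.w e.D whole (fun i => if i = 0 then u else if i = 1 then v else 0) W
      (fun r _ => r 0 = 0 ∧ r 10 = (qry e.G e.Lf e.X e.J true v u).toNat)
      (2 + (100 * (e.X + 2)) ^ (e.J + 1) * (e.Lg + 1) + 18) := by
  have b2 := he.b2
  have b5 := he.b5
  obtain ⟨q1, q2, q3, -⟩ := he.frame le_rfl
  have p1 := Nat.two_pow_pos e.J
  have p2 : v + 1 ≤ (v + 1) * 2 ^ e.J := Nat.le_mul_of_pos_right _ p1
  obtain ⟨c1, c2⟩ := he.c2 (4 * 0 + 2) (by omega)
  have o1 := he.off_le (a := 4 * 0 + 2 + 1) (by omega)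
  rw [(he.fm 0 (by omega)).2.2.1] at c1 c2
  simp only [List.length_cons, List.length_nil, Nat.mul_zero, Nat.zero_add] at c1 c2 o1
  refine Tr.bin u (by simp [Op.ev]) (by omega) ?_
  refine Tr.bin v (by simp [Op.ev]) (by omega) ?_
  refine Tr.const (by omega) ?_
  refine Tr.const (by omega) ?_
  refine Tr.const (by omega) ?_
  refine Tr.const (by omega) ?_
  refine Tr.const (by omega) ?_
  refine Tr.load (e.off 2) (by simpa using he.c1 2 (by omega)) ?_
  refine Tr.bin (e.off 2 + 2) (by simp [Op.ev]) (by omega) ?_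
  refine Tr.load e.X (by simpa using c2 2 (by omega)) ?_
  refine Tr.bin (e.off 2 + 3) (by simp [Op.ev]) (by omega) ?_
  refine Tr.load (2 ^ e.J) (by simpa using c2 3 (by omega)) ?_
  refine Tr.bin (2 ^ e.J + 1) (by simp [Op.ev]) (by omega) ?_
  refine Tr.const (by omega) ?_
  refine Tr.bin (e.X + 20) (by simp [Op.ev, Nat.add_comm]) (by omega) ?_
  refine Tr.bin (e.X + 2) (by simp [Op.ev]) (by omega) ?_
  refine Tr.const (by omega) ?_
  refine Tr.const (by omega) ?_
  refine proc_all he _ le_rfl _ _ true v u _ _ (by constructor <;> simp) (by simp) (by simp)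
    (by simp) (by simp) (by simp) hu hv fun r' W' G k8 _ k10 _ => tr_exit ?_ ⟨G.g0, k10⟩
  rw [k8, G.g7]
  omega

/-- The query program. -/
def prog : List Instr := whole.comp 0 ++ [.jlt 0 10 (whole.len + 2), .halt false, .halt true]

theorem mach (he : e.Ok) {u v : ℕ} (hu : u < e.G.N) (hv : (v + 1) * 2 ^ e.J ≤ e.G.N)
    (W : ℕ → ℕ) : run prog e.w e.D ((100 * (e.X + 2)) ^ (e.J + 1) * (e.Lg + 1) + 22) 0
      (fun i => if i = 0 then u else if i = 1 then v else 0) W =
        some (qry e.G e.Lf e.X e.J true v u) := by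
  obtain ⟨r', W', t, h1, h2, h3, h4⟩ := whole_spec he hu hv W
  have a0 : At prog 0 prog := fun k _ => by rw [Nat.zero_add]
  have a1 := At.append (l1 := whole.comp 0) a0
  rw [Cmd.length_comp] at a1
  have a2 := a1.2.cons
  have a3 := a2.2.cons
  have a4 := a3.2.cons.1
  have s := h1.sim 0 a1.1 2
  rw [run, a2.1] at s
  refine run_mono (t := 2 + t) ?_ (by omega)
  cases hb : qry e.G e.Lf e.X e.J true v u
  · have hc : ¬ r' 0 < r' 10 := by simp [h4, hb]
    simp only [hc, if_false] at s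
    rw [s, run, a3.1]
  · have hc : r' 0 < r' 10 := by simp [h3, h4, hb]
    simp only [hc, if_true] at s
    rw [s, run, show whole.len + 2 = 0 + whole.len + 1 + 1 by omega, a4]

end Pool.Agent.Lib.MP_a349b4_lc.GZ
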