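import Pool.Agent.Lib.MP_a349b4_lc.GZ.Layer
import Pool.Agent.Lib.MP_a349b4_lc.GZ.Csr
import Pool.Agent.Lib.MP_a349b4_lc.GZ.MachC

/-! The memory image, its size, and the final bounds. -/

set_option autoImplicit false

namespace Pool.Agent.Lib.MP_a349b4_lc.GZ

open Finset Pool.Agent.Lib.MP_a349b4_lc.LG

def MachStmt : Prop := ∃ (P : List Instr) (C : ℕ), ∀ (G : Gr) (Lf : ℕ → List ℕ) (X J Lg w : ℕ)
    (D : List ℕ) (off : ℕ → ℕ) (Fm : ℕ → List ℕ) (B : ℕ),
    (∀ a ≤ 4 * G.N, D.getD a 0 = off a) →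
    (∀ a < 4 * G.N, off (a + 1) = off a + (Fm a).length ∧
      ∀ q < (Fm a).length, D.getD (off a + q) 0 = (Fm a).getD q 0) →
    (∀ z < G.N, Fm (4 * z) = G.adj false z ∧ Fm (4 * z + 1) = G.adj true z ∧
      Fm (4 * z + 2) = [G.lay false z, G.lay true z, X, 2 ^ J] ∧ Fm (4 * z + 3) = Lf z) →
    (∀ z < G.N, (Lf z).Pairwise (· < ·) ∧ (Lf z).length < 2 ^ Lg) →
    off (4 * G.N) ≤ B → 4 * G.N ≤ B → 2 ^ J * (X + 20) ≤ B →
    (∀ d z, z < G.N → G.lay d z ≤ B) → C * B < 2 ^ w →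
    ∀ (u v : ℕ) (W : ℕ → ℕ), u < G.N → (v + 1) * 2 ^ J ≤ G.N →
      run P w D (C * (C * (X + 2)) ^ (J + 1) * (Lg + 1)) 0
        (fun i => if i = 0 then u else if i = 1 then v else 0) W = some (qry G Lf X J true v u)

theorem machStmt : MachStmt := by
  refine ⟨prog, 100, fun G Lf X J Lg w D off Fm B c1 c2 fm srt b1 b2 b3 b4 b5 u v W hu hv => ?_⟩
  refine run_mono (mach (e := ⟨G, Lf, X, J, Lg, w, B, D, off, Fm⟩)
    ⟨c1, c2, fm, srt, b1, b2, b3, b4, by change 4 * B < 2 ^ w; omega⟩ hu hv W) ?_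
  change (100 * (X + 2)) ^ (J + 1) * (Lg + 1) + 22 ≤ _
  have : 0 < (100 * (X + 2)) ^ (J + 1) * (Lg + 1) := by positivity
  rw [Nat.mul_assoc]
  omega

/-- The four lists stored for each vertex of the layered graph. -/
def fam (G : Gr) (Lf : ℕ → List ℕ) (X J a : ℕ) : List ℕ :=
  if a % 4 = 0 then G.adj false (a / 4) else if a % 4 = 1 then G.adj true (a / 4)
  else if a % 4 = 2 then [G.lay false (a / 4), G.lay true (a / 4), X, 2 ^ J] else Lf (a / 4)

theorem fam_eq (G : Gr) (Lf : ℕ → List ℕ) (X J z : ℕ) :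
    fam G Lf X J (4 * z) = G.adj false z ∧ fam G Lf X J (4 * z + 1) = G.adj true z ∧
      fam G Lf X J (4 * z + 2) = [G.lay false z, G.lay true z, X, 2 ^ J] ∧
      fam G Lf X J (4 * z + 3) = Lf z := by
  have a0 : 4 * z % 4 = 0 := by omega
  have a1 : (4 * z + 1) % 4 = 1 := by omega
  have a2 : (4 * z + 2) % 4 = 2 := by omega
  have a3 : (4 * z + 3) % 4 = 3 := by omega
  have b0 : 4 * z / 4 = z := by omega
  have b1 : (4 * z + 1) / 4 = z := by omega
  have b2 : (4 * z + 2) / 4 = z := by omega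
  have b3 : (4 * z + 3) / 4 = z := by omega
  simp [fam, a0, a1, a2, a3, b0, b1, b2, b3]

theorem fam_sum (G : Gr) (Lf : ℕ → List ℕ) (X J N : ℕ) :
    ∑ a ∈ range (4 * N), (fam G Lf X J a).length = ∑ z ∈ range N, (G.adj false z).length +
      ∑ z ∈ range N, (G.adj true z).length + 4 * N + ∑ z ∈ range N, (Lf z).length := by
  induction N with
  | zero => simp
  | succ N ih =>
    obtain ⟨a0, a1, a2, a3⟩ := fam_eq G Lf X J N
    rw [show 4 * (N + 1) = 4 * N + 3 + 1 by omega, sum_range_succ, sum_range_succ, sum_range_succ,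
      sum_range_succ, ih, a0, a1, a2, a3, sum_range_succ, sum_range_succ, sum_range_succ]
    simp only [List.length_cons, List.length_nil]
    omega

theorem sorted_len {l : List ℕ} {N : ℕ} (h : l.Pairwise (· < ·)) (h' : ∀ y ∈ l, y < N) :
    l.length ≤ N := by
  have h1 : l.Nodup := h.imp (fun k => Nat.ne_of_lt k)
  rw [← List.toFinset_card_of_nodup h1, ← card_range N]
  exact card_le_card (fun y hy => mem_range.2 (h' y (List.mem_toFinset.1 hy)))

theorem main_of (hm : MachStmt) : ∃ (P : List Instr) (C : ℕ), ∀ (n k i j w : ℕ)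
    (E : Finset (Fin n × Fin n)), i = min j (Nat.log 2 k + 1) → 2 ^ (i + j) ≤ n →
    C * (n + E.card) ^ 2 ≤ 2 ^ w →
    ∃ D : List ℕ, Answers P w k E D (2 ^ ((2 * i + j + C) * (i + 1)) * (Nat.log 2 n + 1)) ∧
      D.length * 2 ^ j ≤ C * (n * (n + E.card)) := by
  obtain ⟨P, C, H⟩ := hm
  refine ⟨P, 30 * C + 30, fun n k i j w E hi hn hw => ?_⟩
  obtain ⟨m, hmE⟩ : ∃ m, m = n + E.card := ⟨_, rfl⟩
  obtain ⟨X, hX⟩ : ∃ X, X = 2 ^ (2 * i + j) := ⟨_, rfl⟩
  obtain ⟨Lf, l1, l2, l3⟩ := exists_family E k i X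
  obtain ⟨D, off, d1, d2, d3, d4, d5⟩ := exists_csr (fam (lg E (2 ^ i)) Lf X i) (4 * (2 ^ i * n))
  have g0 := lg_deg E (2 ^ i) false
  have g1 := lg_deg E (2 ^ i) true
  change ∑ y ∈ range (2 ^ i * n), _ ≤ _ at g0 g1
  rw [fam_sum] at d2
  rw [← hmE] at l2 g0 g1 hw ⊢
  have hij : i ≤ j := by omega
  obtain ⟨a, ha⟩ : ∃ a, a = 2 ^ i := ⟨_, rfl⟩
  obtain ⟨b, hb⟩ : ∃ b, b = 2 ^ j := ⟨_, rfl⟩
  have a1 : 1 ≤ a := ha ▸ Nat.one_le_two_pow
  have ab : a ≤ b := by rw [ha, hb]; exact Nat.pow_le_pow_right (by omega) hij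
  have hab : a * b ≤ n := by rwa [ha, hb, ← pow_add]
  have hXe : X = a * a * b := by
    rw [hX, ha, hb, ← pow_add, ← pow_add]; exact congrArg _ (by omega)
  have nm : n ≤ m := by omega
  have bn : b ≤ n := (Nat.le_mul_of_pos_left _ a1).trans hab
  have n1 : 1 ≤ n := by omega
  have s1 : (if k < 2 ^ i then 0 else n / 2 ^ i) * b ≤ n := by
    split_ifs with h
    · omega
    · have := Nat.lt_pow_succ_log_self (b := 2) (by omega) k
      have e : i = j := by
        rcases Nat.le_total j (Nat.log 2 k + 1) with h1 | h1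
        · rw [hi, min_eq_left h1]
        · rw [hi, min_eq_right h1] at h; exact absurd this h
      rw [e, hb]
      exact Nat.div_mul_le_self _ _
  have s2 : a * (a * m / (X + 1)) * b ≤ m := by
    have h1 := Nat.div_mul_le_self (a * m) (X + 1)
    have h2 : a * (a * (a * m / (X + 1)) * b) ≤ a * m :=
      calc a * (a * (a * m / (X + 1)) * b) = a * m / (X + 1) * X := by rw [hXe]; ring
        _ ≤ a * m / (X + 1) * (X + 1) := Nat.mul_le_mul_left _ (by omega)
        _ ≤ _ := h1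
    exact Nat.le_of_mul_le_mul_left h2 a1
  obtain ⟨s, hs⟩ : ∃ s, s = (if k < 2 ^ i then 0 else n / 2 ^ i) := ⟨_, rfl⟩
  rw [← hs] at s1 l2
  have hsz : off (4 * (2 ^ i * n)) * b ≤ 14 * (n * m) := by
    have t0 : off (4 * (2 ^ i * n)) ≤
        8 * (a * n) + 1 + 2 * (a * m) + n * (s + 1 + a * (a * m / (X + 1))) := by
      rw [ha]; omega
    have t1 : a * n * b ≤ n * m := by
      calc a * n * b = a * b * n := by ring
        _ ≤ n * m := Nat.mul_le_mul hab nm
    have t2 : a * m * b ≤ n * m := by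
      calc a * m * b = a * b * m := by ring
        _ ≤ n * m := Nat.mul_le_mul_right _ hab
    have t3 : n * (s * b + b + a * (a * m / (X + 1)) * b) ≤ n * (3 * m) :=
      Nat.mul_le_mul_left _ (by omega)
    have t4 : b ≤ n * m := bn.trans (Nat.le_mul_of_pos_right _ (by omega))
    calc _ ≤ (8 * (a * n) + 1 + 2 * (a * m) + n * (s + 1 + a * (a * m / (X + 1)))) * b :=
          Nat.mul_le_mul_right _ t0
      _ = 8 * (a * n * b) + b + 2 * (a * m * b) + n * (s * b + b + a * (a * m / (X + 1)) * b) := by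
          ring
      _ ≤ 8 * (n * m) + n * m + 2 * (n * m) + n * (3 * m) := by omega
      _ = _ := by ring
  have mm : n * m ≤ m * m := Nat.mul_le_mul_right _ nm
  have nn : n * n ≤ m * m := Nat.mul_le_mul nm nm
  have m1 : m ≤ m * m := Nat.le_mul_self m
  have an : a * n ≤ m * m := Nat.mul_le_mul (by omega) nm
  have hoff : off (4 * (2 ^ i * n)) ≤ 14 * (m * m) :=
    (Nat.le_mul_of_pos_right _ (by omega)).trans (hsz.trans (by omega))
  have aX : a * X ≤ m * m := by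
    calc a * X = a * a * (a * b) := by rw [hXe]; ring
      _ ≤ a * b * (a * b) := Nat.mul_le_mul_right _ (Nat.mul_le_mul_left _ ab)
      _ ≤ m * m := Nat.mul_le_mul (by omega) (by omega)
  have X1 : X ≤ a * X := Nat.le_mul_of_pos_left _ a1
  have hlay : ∀ d z, z < 2 ^ i * n → (lg E (2 ^ i)).lay d z ≤ 21 * (m * m) := by
    intro d z hz
    have := Nat.div_le_self z n
    cases d
    · change 2 ^ i - z / n ≤ _
      rw [← ha]
      exact (Nat.sub_le _ _).trans (ab.trans (bn.trans (nm.trans (m1.trans (by omega)))))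
    · change z / n ≤ _
      rw [← ha] at hz
      omega
  have hw' : (C + 1) * (21 * (m * m)) < 2 ^ w := by
    have : (30 * C + 30) * m ^ 2 = 30 * (C * (m * m)) + 30 * (m * m) := by ring
    have : (C + 1) * (21 * (m * m)) = 21 * (C * (m * m)) + 21 * (m * m) := by ring
    omega
  have hw1 : 21 * (m * m) < 2 ^ w := (Nat.le_mul_of_pos_left _ (Nat.succ_pos C)).trans_lt hw'
  have hlog : 2 ^ i * n < 2 ^ (2 * Nat.log 2 n + 1) := by
    have h1 := Nat.lt_pow_succ_log_self (b := 2) (by omega) n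
    have h2 : i ≤ Nat.log 2 n := Nat.le_log_of_pow_le (by omega) (by rw [← ha]; omega)
    calc 2 ^ i * n < 2 ^ i * 2 ^ (Nat.log 2 n + 1) := Nat.mul_lt_mul_of_pos_left h1 (by omega)
      _ ≤ _ := by rw [← pow_add]; exact Nat.pow_le_pow_right (by omega) (by omega)
  refine ⟨D, ⟨fun x hx => ?_, fun u v W => ⟨_, run_mono (H (lg E (2 ^ i)) Lf X i
    (2 * Nat.log 2 n + 1) w D off _ (21 * (m * m)) d3 d4 (fun z _ => fam_eq _ _ _ _ z)
    (fun z _ => ⟨(l1 z).1, (sorted_len (l1 z).1 (l1 z).2).trans_lt hlog⟩) (hoff.trans (by omega))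
    ?_ ?_ hlay ((Nat.mul_le_mul_right _ (Nat.le_succ C)).trans_lt hw') u v W ?_ ?_) ?_,
    l3 u v⟩⟩, ?_⟩
  · rcases d5 x hx with h | ⟨c, hc, h⟩
    · omega
    · have hc4 : c / 4 < 2 ^ i * n := by omega
      have hN : 2 ^ i * n ≤ m * m := ha ▸ an
      unfold fam at h
      split_ifs at h
      · have : x < 2 ^ i * n := (lg E (2 ^ i)).lt _ _ _ h
        omega
      · have : x < 2 ^ i * n := (lg E (2 ^ i)).lt _ _ _ h
        omega
      · have q0 := hlay false _ hc4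
        have q1 := hlay true _ hc4
        simp only [List.mem_cons, List.not_mem_nil, or_false] at h
        rcases h with h | h | h | h <;> omega
      · have := (l1 _).2 x h
        omega
  · change 4 * (2 ^ i * n) ≤ _
    rw [← ha]; omega
  · rw [← ha, Nat.mul_add]; omega
  · change (u : ℕ) < 2 ^ i * n
    exact u.2.trans_le (Nat.le_mul_of_pos_left _ (Nat.two_pow_pos i))
  · change _ ≤ 2 ^ i * n
    rw [Nat.mul_comm]
    exact Nat.mul_le_mul_left _ v.2
  · have c1 : C ≤ 2 ^ C := Nat.lt_two_pow_self.le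
    have c2 : X + 2 ≤ 2 ^ (2 * i + j + 2) := by
      have := Nat.one_le_two_pow (n := 2 * i + j)
      rw [pow_add _ _ 2, ← hX]; omega
    have c3 : C * (X + 2) ≤ 2 ^ (2 * i + j + 2 + C) := by
      rw [pow_add _ _ C, Nat.mul_comm]; exact Nat.mul_le_mul c2 c1
    have c4 : (C * (X + 2)) ^ (i + 1) ≤ 2 ^ ((2 * i + j + 2 + C) * (i + 1)) := by
      rw [pow_mul]; exact Nat.pow_le_pow_left c3 _
    calc C * (C * (X + 2)) ^ (i + 1) * (2 * Nat.log 2 n + 1 + 1)
        ≤ 2 ^ C * 2 ^ ((2 * i + j + 2 + C) * (i + 1)) * (2 * (Nat.log 2 n + 1)) :=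
          Nat.mul_le_mul (Nat.mul_le_mul c1 c4) (by omega)
      _ = 2 ^ (C + (2 * i + j + 2 + C) * (i + 1) + 1) * (Nat.log 2 n + 1) := by
          rw [pow_succ, pow_add]; ring
      _ ≤ _ := by
          refine Nat.mul_le_mul_right _ (Nat.pow_le_pow_right (by omega) ?_)
          nlinarith [Nat.zero_le (C * i), Nat.zero_le i]
  · rw [d1, ← hb]
    exact hsz.trans (Nat.mul_le_mul_right _ (by omega))

end Pool.Agent.Lib.MP_a349b4_lc.GZ
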