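import Pool.Agent.Lib.MP_a349b4_lc.GZ.Main

/-!
One word-RAM program for `k`-reachability for all `k`, unbounded reachability included, with
space `n (n + m) / 2 ^ j` and query time `2 ^ O(j min(j, log k)) log n`.
-/

set_option autoImplicit false

namespace Pool.Agent.Lib.MP_a349b4_lc.GZ.Uniform

open Pool.Agent.Lib.MP_a349b4_lc.LG

theorem result : ∃ (P : List Instr) (C : ℕ), ∀ (n k i j w : ℕ) (E : Finset (Fin n × Fin n)),
    i = min j (Nat.log 2 k + 1) → 2 ^ (i + j) ≤ n → C * (n + E.card) ^ 2 ≤ 2 ^ w →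
    ∃ D : List ℕ, Answers P w k E D (2 ^ ((2 * i + j + C) * (i + 1)) * (Nat.log 2 n + 1)) ∧
      D.length * 2 ^ j ≤ C * (n * (n + E.card)) :=
  Pool.Agent.Lib.MP_a349b4_lc.GZ.main_of Pool.Agent.Lib.MP_a349b4_lc.GZ.machStmt

end Pool.Agent.Lib.MP_a349b4_lc.GZ.Uniform
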